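import Mathlib

/-! MP_41c25d_an: definitions and statements of the pieces. -/

open MeasureTheory Matrix

namespace Pool.Agent.R263.SC

/-- `tr |M|^p = tr ((Mᴴ M)^(p/2))`, the `p`-th power of the Schatten `p`-norm of `M`
(the eigenvalues of `Mᴴ M` are the squares of the singular values of `M`). -/
noncomputable def schattenPow {n : ℕ} (p : ℝ) (M : Matrix (Fin n) (Fin n) ℂ) : ℝ :=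
  ∑ i, ((Matrix.isHermitian_conjTranspose_mul_self M).eigenvalues i) ^ (p / 2)

/-- the complex span of `A, B` is carried into `L_p((0,1), ℂ)` with the Schatten `p`-norm. -/
def Embeds (p : ℝ) {n : ℕ} (A B : Matrix (Fin n) (Fin n) ℂ) : Prop :=
  ∃ f g : ℝ → ℂ, MemLp f (ENNReal.ofReal p) (volume.restrict (Set.Ioo (0:ℝ) 1)) ∧
    MemLp g (ENNReal.ofReal p) (volume.restrict (Set.Ioo (0:ℝ) 1)) ∧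
    ∀ α β : ℂ, schattenPow p (α • A + β • B) =
      ∫ t in Set.Ioo (0:ℝ) 1, ‖α * f t + β * g t‖ ^ p

/-- the nilpotent Jordan block. -/
def JJ : Matrix (Fin 2) (Fin 2) ℂ := !![0, 1; 0, 0]

/-- primitive sixth root of unity. -/
noncomputable def om : ℂ := ⟨1 / 2, Real.sqrt 3 / 2⟩

/-- `binom(p/2, 2)^2`. -/
noncomputable def c2 (p : ℝ) : ℝ := ((p / 2) * (p / 2 - 1) / 2) ^ 2

/-- six-phase mean of `‖a + ω^k b‖^p`. -/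
noncomputable def A6 (p : ℝ) (a b : ℂ) : ℝ := (1 / 6) * ∑ k : Fin 6, ‖a + om ^ (k : ℕ) * b‖ ^ p

/-! ### negative part, `p > 10` -/

def S_P1 : Prop := ∀ m : ℝ, 5 < m → ∀ s : ℝ, -1 ≤ s →
  1 + m * s + m * (m - 1) / 2 * s ^ 2 + m * (m - 1) * (m - 2) / 6 * s ^ 3
    + m * (m - 1) * (m - 2) * (m - 3) / 24 * s ^ 4
    + m * (m - 1) * (m - 2) * (m - 3) * (m - 4) / 120 * s ^ 5 ≤ (1 + s) ^ m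

def S_P2 : Prop := ∀ p : ℝ, 10 < p → ∀ a b : ℂ,
  ‖a‖ ^ p + (p / 2) ^ 2 * (‖a‖ ^ (p - 2) * ‖b‖ ^ 2) + c2 p * (‖a‖ ^ (p - 4) * ‖b‖ ^ 4) ≤ A6 p a b

def S_P3 : Prop := ∀ p : ℝ, 10 < p → ∃ C : ℝ, 0 ≤ C ∧ ∀ a b : ℂ,
  A6 p a b ≤ ‖a‖ ^ p + (p / 2) ^ 2 * (‖a‖ ^ (p - 2) * ‖b‖ ^ 2)
    + C * (‖a‖ ^ (p - 3) * ‖b‖ ^ 3 + ‖b‖ ^ p)

def S_P4 : Prop := ∀ p w : ℝ, 0 ≤ w → ∀ β : ℂ, ‖β‖ = 2 * Real.sinh w →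
  schattenPow p ((1:ℂ) • (1 : Matrix (Fin 2) (Fin 2) ℂ) + β • JJ) = 2 * Real.cosh (p * w)

def S_CORE : Prop := ∀ p μ₁ μ₂ C : ℝ, 10 < p → 0 ≤ μ₂ →
  (∀ w : ℝ, 0 ≤ w → w ≤ 1 →
    2 + p ^ 2 * Real.sinh w ^ 2 * μ₁ + 16 * c2 p * Real.sinh w ^ 4 * μ₂ ≤ 2 * Real.cosh (p * w)) →
  (∀ w : ℝ, 0 ≤ w → w ≤ 1 →
    2 * Real.cosh (p * w) ≤ 2 + p ^ 2 * Real.sinh w ^ 2 * μ₁ + C * Real.sinh w ^ 3) →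
  μ₁ ^ 2 ≤ 2 * μ₂ → False

def S_YOUNG : Prop := ∀ (μ : Measure ℝ) (p a b : ℝ) (f g : ℝ → ℂ), 0 < p → 0 ≤ a → 0 ≤ b →
  a + b = p → MemLp f (ENNReal.ofReal p) μ → MemLp g (ENNReal.ofReal p) μ →
  Integrable (fun t => ‖f t‖ ^ a * ‖g t‖ ^ b) μ

def S_CS : Prop := ∀ (μ : Measure ℝ) (p : ℝ) (f g : ℝ → ℂ), 4 < p →
  MemLp f (ENNReal.ofReal p) μ → MemLp g (ENNReal.ofReal p) μ →
  (∫ t, ‖f t‖ ^ (p - 2) * ‖g t‖ ^ 2 ∂μ) ^ 2 ≤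
    (∫ t, ‖f t‖ ^ p ∂μ) * (∫ t, ‖f t‖ ^ (p - 4) * ‖g t‖ ^ 4 ∂μ)

def S_INT : Prop := ∀ (p : ℝ) (f g : ℝ → ℂ), 10 < p →
  MemLp f (ENNReal.ofReal p) (volume.restrict (Set.Ioo (0:ℝ) 1)) →
  MemLp g (ENNReal.ofReal p) (volume.restrict (Set.Ioo (0:ℝ) 1)) →
  (∀ w : ℝ, 0 ≤ w → ∀ β : ℂ, ‖β‖ = 2 * Real.sinh w →
    ∫ t in Set.Ioo (0:ℝ) 1, ‖f t + β * g t‖ ^ p = 2 * Real.cosh (p * w)) →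
  ∃ μ₁ μ₂ C : ℝ, 0 ≤ μ₂ ∧
  (∀ w : ℝ, 0 ≤ w → w ≤ 1 →
    2 + p ^ 2 * Real.sinh w ^ 2 * μ₁ + 16 * c2 p * Real.sinh w ^ 4 * μ₂ ≤ 2 * Real.cosh (p * w)) ∧
  (∀ w : ℝ, 0 ≤ w → w ≤ 1 →
    2 * Real.cosh (p * w) ≤ 2 + p ^ 2 * Real.sinh w ^ 2 * μ₁ + C * Real.sinh w ^ 3) ∧
  μ₁ ^ 2 ≤ 2 * μ₂

/-! ### positive part, `p = 4` -/

/-- the four Hermitian forms. -/
noncomputable def hh (α β : ℂ) : Fin 4 → ℝ :=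
  ![‖α‖ ^ 2 + ‖β‖ ^ 2, 2 * (α * (starRingEnd ℂ) β).re, 2 * (α * (starRingEnd ℂ) β).im,
    ‖α‖ ^ 2 - ‖β‖ ^ 2]

/-- null vectors of the Lorentz form. -/
def Null (q : Fin 4 → ℝ) : Prop := q 0 ^ 2 = q 1 ^ 2 + q 2 ^ 2 + q 3 ^ 2

def S_Q1 : Prop := ∀ Q : Matrix (Fin 4) (Fin 4) ℝ, Q.PosSemidef →
  Q 0 0 = Q 1 1 + Q 2 2 + Q 3 3 →
  ∃ (N : ℕ) (q : Fin N → Fin 4 → ℝ), (∀ k, Null (q k)) ∧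
    ∀ i j, Q i j = ∑ k, q k i * q k j

def S_Q2 : Prop := ∀ q : Fin 4 → ℝ, Null q → ∃ a b : ℂ, ∀ α β : ℂ,
  ‖α * a + β * b‖ ^ 4 = (∑ i, q i * hh α β i) ^ 2

def S_Q3 : Prop := ∀ (n : ℕ) (A B : Matrix (Fin n) (Fin n) ℂ),
  ∃ Q : Matrix (Fin 4) (Fin 4) ℝ, Q.PosSemidef ∧ Q 0 0 = Q 1 1 + Q 2 2 + Q 3 3 ∧
    ∀ α β : ℂ, (((α • A + β • B)ᴴ * (α • A + β • B) * ((α • A + β • B)ᴴ * (α • A + β • B))).trace).re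
      = ∑ i, ∑ j, Q i j * (hh α β i * hh α β j)

def S_Q4 : Prop := ∀ (n : ℕ) (M : Matrix (Fin n) (Fin n) ℂ),
  schattenPow 4 M = ((Mᴴ * M * (Mᴴ * M)).trace).re

def S_Q5 : Prop := ∀ (N : ℕ) (a b : Fin N → ℂ), ∃ f g : ℝ → ℂ,
  MemLp f (ENNReal.ofReal 4) (volume.restrict (Set.Ioo (0:ℝ) 1)) ∧
  MemLp g (ENNReal.ofReal 4) (volume.restrict (Set.Ioo (0:ℝ) 1)) ∧
  ∀ α β : ℂ, ∫ t in Set.Ioo (0:ℝ) 1, ‖α * f t + β * g t‖ ^ (4:ℝ)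
    = ∑ k, ‖α * a k + β * b k‖ ^ 4

/-! ### result -/

def S_NEG : Prop := ∀ p : ℝ, 10 < p → ¬ Embeds p (1 : Matrix (Fin 2) (Fin 2) ℂ) JJ

def S_POS : Prop := ∀ (n : ℕ) (A B : Matrix (Fin n) (Fin n) ℂ), Embeds 4 A B

end Pool.Agent.R263.SC
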