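import Mathlib
import Pool.Agent.R263.SC.Defs

/-! Piece CORE. -/

open Filter Topology

namespace Pool.Agent.R263.SC

namespace CoreAux

lemma cosh_bd (x : ℝ) (hx : |x| ≤ 1) :
    |Real.cosh x - (1 + x ^ 2 / 2 + x ^ 4 / 24)| ≤ x ^ 6 := by
  have h1 := Real.exp_bound hx (n := 6) (by norm_num)
  have h2 := Real.exp_bound (x := -x) (by rwa [abs_neg]) (n := 6) (by norm_num)
  rw [abs_neg] at h2
  simp only [Finset.sum_range_succ, Finset.sum_range_zero, Nat.factorial] at h1 h2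
  have h3 : |x| ^ 6 = x ^ 6 := by
    rw [← abs_pow]; exact abs_of_nonneg (by positivity)
  rw [h3] at h1 h2
  have hx6 : 0 ≤ x ^ 6 := by positivity
  rw [Real.cosh_eq, abs_le]
  rw [abs_le] at h1 h2
  norm_num at h1 h2
  constructor
  · nlinarith [h1.1, h2.1, h1.2, h2.2]
  · nlinarith [h1.1, h2.1, h1.2, h2.2]

lemma cosh_ge (x : ℝ) (hx : 0 ≤ x) : 1 + x ^ 2 / 2 ≤ Real.cosh x := by
  have h1 : Real.cosh x = 1 + 2 * Real.sinh (x / 2) ^ 2 := by
    have h2 : x = 2 * (x / 2) := by ring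
    conv_lhs => rw [h2]
    rw [Real.cosh_two_mul]
    have h3 := Real.cosh_sq (x / 2)
    linarith
  have h4 : x / 2 ≤ Real.sinh (x / 2) := Real.self_le_sinh_iff.2 (by linarith)
  rw [h1]
  nlinarith

lemma slope : Tendsto (fun w : ℝ => Real.sinh w / w) (𝓝[>] 0) (𝓝 1) := by
  have h1 := (Real.hasDerivAt_sinh 0).tendsto_slope_zero_right
  rw [Real.cosh_zero] at h1
  refine h1.congr (fun w => ?_)
  simp [div_eq_inv_mul]

end CoreAux

open CoreAux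

theorem s_CORE : S_CORE := by
  intro p μ₁ μ₂ C hp hμ₂ hlow hup hμ
  have hp0 : 0 < p := by linarith
  -- (1)
  have h1 : 1 ≤ μ₁ := by
    have hsinh : Tendsto (fun w : ℝ => Real.sinh w) (𝓝[>] 0) (𝓝 0) := by
      have h := (Real.continuous_sinh.tendsto 0)
      rw [Real.sinh_zero] at h
      exact h.mono_left nhdsWithin_le_nhds
    have hlim : Tendsto (fun w : ℝ => p ^ 2 * μ₁ * (Real.sinh w / w) ^ 2 +
        C * (Real.sinh w / w) ^ 2 * Real.sinh w) (𝓝[>] 0)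
        (𝓝 (p ^ 2 * μ₁ * 1 ^ 2 + C * 1 ^ 2 * 0)) :=
      ((tendsto_const_nhds.mul (slope.pow 2))).add
        ((tendsto_const_nhds.mul (slope.pow 2)).mul hsinh)
    have hev : ∀ᶠ w : ℝ in 𝓝[>] 0, p ^ 2 ≤ p ^ 2 * μ₁ * (Real.sinh w / w) ^ 2 +
        C * (Real.sinh w / w) ^ 2 * Real.sinh w := by
      filter_upwards [Ioc_mem_nhdsGT (zero_lt_one : (0 : ℝ) < 1)] with w hw
      have h2 := hup w hw.1.le hw.2
      have h3 := cosh_ge (p * w) (mul_nonneg hp0.le hw.1.le)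
      have h4 : p ^ 2 * w ^ 2 ≤ p ^ 2 * Real.sinh w ^ 2 * μ₁ + C * Real.sinh w ^ 3 := by
        nlinarith
      have h5 : p ^ 2 * μ₁ * (Real.sinh w / w) ^ 2 + C * (Real.sinh w / w) ^ 2 * Real.sinh w =
          (p ^ 2 * Real.sinh w ^ 2 * μ₁ + C * Real.sinh w ^ 3) / w ^ 2 := by
        have := hw.1.ne'
        field_simp
      rw [h5, le_div_iff₀ (pow_pos hw.1 2)]
      exact h4
    have h6 := ge_of_tendsto hlim hev
    have h7 : (0 : ℝ) < p ^ 2 := by positivity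
    nlinarith
  -- (2)
  have h2 : 16 * c2 p * μ₂ ≤ p ^ 4 / 12 - p ^ 2 / 3 := by
    have hlim : Tendsto (fun w : ℝ => (p ^ 4 / 12 - p ^ 2 / 3) + (2 * p ^ 6 + 32 * p ^ 2) * w ^ 2)
        (𝓝[>] 0) (𝓝 ((p ^ 4 / 12 - p ^ 2 / 3) + (2 * p ^ 6 + 32 * p ^ 2) * 0 ^ 2)) := by
      have hc : Continuous (fun w : ℝ => (p ^ 4 / 12 - p ^ 2 / 3) +
          (2 * p ^ 6 + 32 * p ^ 2) * w ^ 2) := by fun_prop
      exact (hc.tendsto 0).mono_left nhdsWithin_le_nhds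
    have hev : ∀ᶠ w : ℝ in 𝓝[>] 0, 16 * c2 p * μ₂ ≤
        (p ^ 4 / 12 - p ^ 2 / 3) + (2 * p ^ 6 + 32 * p ^ 2) * w ^ 2 := by
      filter_upwards [Ioc_mem_nhdsGT (by positivity : (0 : ℝ) < 1 / p)] with w hw
      have hw0 := hw.1
      have hpw : p * w ≤ 1 := by
        have := hw.2
        rw [le_div_iff₀ hp0] at this
        linarith
      have hw1 : w ≤ 1 := by nlinarith
      have hpw0 : 0 ≤ p * w := by positivity
      have hb1 := (abs_le.1 (cosh_bd (p * w) (by rw [abs_of_nonneg hpw0]; exact hpw))).2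
      have h2w : |2 * w| ≤ 1 := by
        rw [abs_of_nonneg (by positivity)]
        nlinarith
      have hb2 := (abs_le.1 (cosh_bd (2 * w) h2w)).1
      have hs : Real.sinh w ^ 2 = (Real.cosh (2 * w) - 1) / 2 := by
        rw [Real.cosh_two_mul]
        have h3 := Real.cosh_sq w
        linarith
      have hl := hlow w hw0.le hw1
      have hsw : w ≤ Real.sinh w := Real.self_le_sinh_iff.2 hw0.le
      have hs4 : w ^ 4 ≤ Real.sinh w ^ 4 := pow_le_pow_left₀ hw0.le hsw 4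
      have hc2 : 0 ≤ 16 * c2 p * μ₂ := by
        have : 0 ≤ c2 p := by unfold c2; positivity
        positivity
      have h4 : 16 * c2 p * μ₂ * w ^ 4 ≤ 16 * c2 p * Real.sinh w ^ 4 * μ₂ := by
        have := mul_le_mul_of_nonneg_left hs4 hc2
        linarith
      have h5 : p ^ 2 * Real.sinh w ^ 2 ≤ p ^ 2 * Real.sinh w ^ 2 * μ₁ := by
        have : 0 ≤ p ^ 2 * Real.sinh w ^ 2 := by positivity
        nlinarith
      have h6 : w ^ 2 + w ^ 4 / 3 - 32 * w ^ 6 ≤ Real.sinh w ^ 2 := by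
        rw [hs]
        have h7 : (2 * w) ^ 2 = 4 * w ^ 2 := by ring
        have h8 : (2 * w) ^ 4 = 16 * w ^ 4 := by ring
        have h9 : (2 * w) ^ 6 = 64 * w ^ 6 := by ring
        rw [h7, h8, h9] at hb2
        linarith
      have h7 : p ^ 2 * (w ^ 2 + w ^ 4 / 3 - 32 * w ^ 6) ≤ p ^ 2 * Real.sinh w ^ 2 :=
        mul_le_mul_of_nonneg_left h6 (by positivity)
      have h8 : 2 * Real.cosh (p * w) ≤ 2 + p ^ 2 * w ^ 2 + p ^ 4 * w ^ 4 / 12 +
          2 * p ^ 6 * w ^ 6 := by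
        have e1 : (p * w) ^ 2 = p ^ 2 * w ^ 2 := by ring
        have e2 : (p * w) ^ 4 = p ^ 4 * w ^ 4 := by ring
        have e3 : (p * w) ^ 6 = p ^ 6 * w ^ 6 := by ring
        rw [e1, e2, e3] at hb1
        linarith
      have h9 : 16 * c2 p * μ₂ * w ^ 4 ≤
          ((p ^ 4 / 12 - p ^ 2 / 3) + (2 * p ^ 6 + 32 * p ^ 2) * w ^ 2) * w ^ 4 := by
        have e : ((p ^ 4 / 12 - p ^ 2 / 3) + (2 * p ^ 6 + 32 * p ^ 2) * w ^ 2) * w ^ 4 =
            (2 + p ^ 2 * w ^ 2 + p ^ 4 * w ^ 4 / 12 + 2 * p ^ 6 * w ^ 6) - 2 -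
              p ^ 2 * (w ^ 2 + w ^ 4 / 3 - 32 * w ^ 6) := by ring
        rw [e]
        linarith
      exact le_of_mul_le_mul_right h9 (pow_pos hw0 4)
    have h3 := ge_of_tendsto hlim hev
    linarith
  -- (3)
  have hc : 16 * c2 p = p ^ 2 * (p - 2) ^ 2 / 4 := by unfold c2; ring
  rw [hc] at h2
  have h3 : 1 / 2 ≤ μ₂ := by nlinarith
  have h4 : p ^ 2 * (p - 2) ^ 2 / 4 * (1 / 2) ≤ p ^ 2 * (p - 2) ^ 2 / 4 * μ₂ :=
    mul_le_mul_of_nonneg_left h3 (by positivity)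
  have h5 : p ^ 2 * (p - 2) * ((p - 2) / 8) ≤ p ^ 2 * (p - 2) * ((p + 2) / 12) := by
    have e1 : p ^ 2 * (p - 2) * ((p - 2) / 8) = p ^ 2 * (p - 2) ^ 2 / 4 * (1 / 2) := by ring
    have e2 : p ^ 2 * (p - 2) * ((p + 2) / 12) = p ^ 4 / 12 - p ^ 2 / 3 := by ring
    rw [e1, e2]
    linarith
  have h6 : (p - 2) / 8 ≤ (p + 2) / 12 :=
    le_of_mul_le_mul_left h5 (mul_pos (by positivity) (by linarith))
  linarith

end Pool.Agent.R263.SC
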