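import Mathlib
import Pool.Agent.R263.SC.Defs

/-! Piece CORE, second copy: contradiction from the two bounds. -/

set_option autoImplicit false

open MeasureTheory Matrix

namespace Pool.Agent.R263.SC

namespace COREb

theorem cosh_approx (x : ℝ) (hx : |x| ≤ 1) :
    |2 * Real.cosh x - 2 - x ^ 2 - x ^ 4 / 12| ≤ x ^ 6 := by
  have h1 := Real.exp_bound hx (n := 6) (by norm_num)
  have h2 := Real.exp_bound (x := -x) (by rwa [abs_neg]) (n := 6) (by norm_num)
  simp only [Finset.sum_range_succ, Finset.sum_range_zero, Nat.factorial, abs_neg] at h1 h2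
  have e6 : |x| ^ 6 = x ^ 6 := by
    rw [show (6 : ℕ) = 2 * 3 by norm_num, pow_mul, sq_abs, ← pow_mul]
  rw [e6] at h1 h2
  have h3 : 0 ≤ x ^ 6 := by positivity
  rw [abs_le] at h1 h2 ⊢
  rw [Real.cosh_eq]
  norm_num at h1 h2
  constructor <;> nlinarith [h1.1, h1.2, h2.1, h2.2]

theorem sinh_sq (w : ℝ) : Real.sinh w ^ 2 = (2 * Real.cosh (2 * w) - 2) / 4 := by
  rw [Real.cosh_two_mul, Real.cosh_sq]
  ring

theorem sinh_lower (w : ℝ) (h0 : 0 ≤ w) (h1 : w ≤ 1 / 2) :
    w ^ 2 + w ^ 4 / 3 - 16 * w ^ 6 ≤ Real.sinh w ^ 2 := by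
  have h := (abs_le.1 (cosh_approx (2 * w) (by rw [abs_of_nonneg (by linarith)]; linarith))).1
  rw [sinh_sq]
  nlinarith [h]

theorem sinh_upper (w : ℝ) (h0 : 0 ≤ w) (h1 : w ≤ 1 / 2) :
    Real.sinh w ^ 2 ≤ w ^ 2 + w ^ 4 / 3 + 16 * w ^ 6 := by
  have h := (abs_le.1 (cosh_approx (2 * w) (by rw [abs_of_nonneg (by linarith)]; linarith))).2
  rw [sinh_sq]
  nlinarith [h]

end COREb

open COREb in
theorem s_CORE_b : S_CORE := by
  intro p μ₁ μ₂ C hp hμ2 hL hU hμ
  have hp0 : 0 < p := by linarith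
  -- first step
  have h1 : 1 ≤ μ₁ := by
    by_contra hlt
    rw [not_le] at hlt
    have key : ∀ w : ℝ, 0 < w → w ≤ 1 / 4 → p ^ 2 * (1 - μ₁) ≤ (17 * p ^ 2 + 8 * |C|) * w := by
      intro w hw0 hw1
      have a1 := hU w hw0.le (by linarith)
      have a2 : 1 + (p * w) ^ 2 / 2 ≤ Real.cosh (p * w) := by
        have c1 := sinh_sq (p * w / 2)
        have c2 : p * w / 2 ≤ Real.sinh (p * w / 2) := Real.self_le_sinh_iff.2 (by positivity)
        have c3 : (p * w / 2) ^ 2 ≤ Real.sinh (p * w / 2) ^ 2 :=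
          pow_le_pow_left₀ (by positivity) c2 2
        rw [show 2 * (p * w / 2) = p * w by ring] at c1
        nlinarith [c1, c3]
      have a3 := sinh_upper w hw0.le (by linarith)
      have hw2 : w ^ 2 ≤ 1 / 16 := by nlinarith
      have a4 : Real.sinh w ^ 2 ≤ w ^ 2 + 17 * w ^ 4 := by
        have : w ^ 6 ≤ w ^ 4 := by
          have : w ^ 6 = w ^ 4 * w ^ 2 := by ring
          rw [this]
          nlinarith [pow_pos hw0 4]
        nlinarith [pow_pos hw0 4]
      have a5 : w ≤ Real.sinh w := Real.self_le_sinh_iff.2 hw0.le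
      have a6 : Real.sinh w ≤ 2 * w := by
        have : Real.sinh w ^ 2 ≤ (2 * w) ^ 2 := by
          have : w ^ 4 = w ^ 2 * w ^ 2 := by ring
          nlinarith [sq_nonneg w]
        exact (pow_le_pow_iff_left₀ (by linarith) (by linarith) two_ne_zero).1 this
      have a7 : C * Real.sinh w ^ 3 ≤ |C| * (8 * w ^ 3) := by
        have b1 : Real.sinh w ^ 3 ≤ (2 * w) ^ 3 := pow_le_pow_left₀ (by linarith) a6 3
        have b2 : 0 ≤ Real.sinh w ^ 3 := by
          have : 0 ≤ Real.sinh w := by linarith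
          positivity
        calc C * Real.sinh w ^ 3 ≤ |C| * Real.sinh w ^ 3 :=
              mul_le_mul_of_nonneg_right (le_abs_self C) b2
          _ ≤ |C| * (8 * w ^ 3) := by
              refine mul_le_mul_of_nonneg_left ?_ (abs_nonneg C)
              nlinarith
      have a8 : w ^ 2 ≤ Real.sinh w ^ 2 := pow_le_pow_left₀ hw0.le a5 2
      have a9 : p ^ 2 * Real.sinh w ^ 2 * μ₁ ≤
          p ^ 2 * w ^ 2 * (μ₁ - 1) + p ^ 2 * (w ^ 2 + 17 * w ^ 4) := by
        have b1 : p ^ 2 * (Real.sinh w ^ 2 - w ^ 2) * (μ₁ - 1) ≤ 0 :=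
          mul_nonpos_of_nonneg_of_nonpos (mul_nonneg (by positivity) (by linarith)) (by linarith)
        have b2 : p ^ 2 * Real.sinh w ^ 2 ≤ p ^ 2 * (w ^ 2 + 17 * w ^ 4) :=
          mul_le_mul_of_nonneg_left a4 (by positivity)
        nlinarith [b1, b2]
      have b0 : w ^ 2 * (p ^ 2 * (1 - μ₁)) ≤ w ^ 2 * (17 * p ^ 2 * w ^ 2 + 8 * |C| * w) := by
        nlinarith [a1, a2, a7, a9]
      have b3 : p ^ 2 * (1 - μ₁) ≤ 17 * p ^ 2 * w ^ 2 + 8 * |C| * w :=
        le_of_mul_le_mul_left b0 (by positivity)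
      have b4 : 17 * p ^ 2 * w ^ 2 ≤ 17 * p ^ 2 * w := by
        have : w ^ 2 ≤ w := by nlinarith
        exact mul_le_mul_of_nonneg_left this (by positivity)
      linarith
    set A := p ^ 2 * (1 - μ₁) with hA
    set B := 17 * p ^ 2 + 8 * |C| with hB
    have hA0 : 0 < A := mul_pos (by positivity) (by linarith)
    have hB0 : 0 < B := by positivity
    have k1 := key (min (1 / 4) (A / (2 * B))) (lt_min (by norm_num) (by positivity))
      (min_le_left _ _)
    have k2 : B * min (1 / 4) (A / (2 * B)) ≤ B * (A / (2 * B)) :=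
      mul_le_mul_of_nonneg_left (min_le_right _ _) hB0.le
    have k3 : B * (A / (2 * B)) = A / 2 := by field_simp
    linarith
  have h2 : 1 / 2 ≤ μ₂ := by nlinarith
  -- second step
  have hc : c2 p = p ^ 2 * (p - 2) ^ 2 / 64 := by
    unfold c2
    ring
  set D := p ^ 2 / 3 + p ^ 2 * (p - 2) ^ 2 / 8 - p ^ 4 / 12 with hD
  have hD0 : 0 < D := by
    have : D = p ^ 2 * ((p - 2) * (p - 10)) / 24 := by
      rw [hD]
      ring
    rw [this]
    have : 0 < (p - 2) * (p - 10) := mul_pos (by linarith) (by linarith)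
    positivity
  have key : ∀ w : ℝ, 0 < w → w ≤ 1 / 2 → p * w ≤ 1 →
      D ≤ (p ^ 6 + 16 * p ^ 2) * w ^ 2 := by
    intro w hw0 hw1 hw2
    have a1 := hL w hw0.le (by linarith)
    have a2 := (abs_le.1 (cosh_approx (p * w) (by rw [abs_of_nonneg (by positivity)]; exact hw2))).2
    have a3 := sinh_lower w hw0.le hw1
    have a5 : w ≤ Real.sinh w := Real.self_le_sinh_iff.2 hw0.le
    have a6 : w ^ 4 ≤ Real.sinh w ^ 4 := pow_le_pow_left₀ hw0.le a5 4
    have a7 : p ^ 2 * (w ^ 2 + w ^ 4 / 3 - 16 * w ^ 6) ≤ p ^ 2 * Real.sinh w ^ 2 * μ₁ := by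
      have b1 : p ^ 2 * (w ^ 2 + w ^ 4 / 3 - 16 * w ^ 6) ≤ p ^ 2 * Real.sinh w ^ 2 :=
        mul_le_mul_of_nonneg_left a3 (by positivity)
      have b2 : p ^ 2 * Real.sinh w ^ 2 * 1 ≤ p ^ 2 * Real.sinh w ^ 2 * μ₁ :=
        mul_le_mul_of_nonneg_left h1 (by positivity)
      linarith
    have a8 : p ^ 2 * (p - 2) ^ 2 / 8 * w ^ 4 ≤ 16 * c2 p * Real.sinh w ^ 4 * μ₂ := by
      rw [hc]
      have b1 : w ^ 4 * (1 / 2) ≤ Real.sinh w ^ 4 * μ₂ :=
        mul_le_mul a6 h2 (by norm_num) (by positivity)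
      have b2 : 0 ≤ p ^ 2 * (p - 2) ^ 2 / 4 := by positivity
      nlinarith [mul_le_mul_of_nonneg_left b1 b2]
    have b0 : w ^ 4 * D ≤ w ^ 4 * ((p ^ 6 + 16 * p ^ 2) * w ^ 2) := by
      rw [hD]
      nlinarith [a1, a2, a7, a8]
    exact le_of_mul_le_mul_left b0 (by positivity)
  set K := p ^ 6 + 16 * p ^ 2 with hK
  have hK0 : 0 < K := by positivity
  set w := min (min (1 / 2) (1 / p)) (D / (2 * K)) with hw
  have hw0 : 0 < w := lt_min (lt_min (by norm_num) (by positivity)) (by positivity)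
  have hw1 : w ≤ 1 / 2 := (min_le_left _ _).trans (min_le_left _ _)
  have hw2 : p * w ≤ 1 := by
    have : w ≤ 1 / p := (min_le_left _ _).trans (min_le_right _ _)
    calc p * w ≤ p * (1 / p) := mul_le_mul_of_nonneg_left this hp0.le
      _ = 1 := by field_simp
  have hw3 : w ≤ D / (2 * K) := min_le_right _ _
  have k1 := key w hw0 hw1 hw2
  have k2 : K * w ^ 2 ≤ K * w := by
    have : w ^ 2 ≤ w := by nlinarith
    exact mul_le_mul_of_nonneg_left this hK0.le
  have k3 : K * w ≤ K * (D / (2 * K)) := mul_le_mul_of_nonneg_left hw3 hK0.le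
  have k4 : K * (D / (2 * K)) = D / 2 := by field_simp
  linarith

end Pool.Agent.R263.SC
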