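import Mathlib
import Pool.Agent.R263.SC.Defs

open MeasureTheory Matrix

namespace Pool.Agent.R263.SC

def S_E8 : Prop := ¬ Embeds 8 (1 : Matrix (Fin 2) (Fin 2) ℂ) JJ

def S_E10 : Prop := ¬ Embeds 10 (1 : Matrix (Fin 2) (Fin 2) ℂ) JJ

/-- six-phase identities. -/
def S_PH : Prop := (∀ a b : ℂ, (1 / 6 : ℝ) * ∑ k : Fin 6, ‖a + om ^ (k : ℕ) * b‖ ^ 8 =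
    ‖a‖ ^ 8 + 16 * (‖a‖ ^ 6 * ‖b‖ ^ 2) + 36 * (‖a‖ ^ 4 * ‖b‖ ^ 4) + 16 * (‖a‖ ^ 2 * ‖b‖ ^ 6) + ‖b‖ ^ 8) ∧
  (∀ a b : ℂ, (1 / 6 : ℝ) * ∑ k : Fin 6, ‖a + om ^ (k : ℕ) * b‖ ^ 10 =
    ‖a‖ ^ 10 + 25 * (‖a‖ ^ 8 * ‖b‖ ^ 2) + 100 * (‖a‖ ^ 6 * ‖b‖ ^ 4) + 100 * (‖a‖ ^ 4 * ‖b‖ ^ 6)
      + 25 * (‖a‖ ^ 2 * ‖b‖ ^ 8) + ‖b‖ ^ 10)

end Pool.Agent.R263.SC
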