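import Mathlib
import Pool.Agent.R263.SC.Defs
import Pool.Agent.R263.SC.Defs2

/-! MP_41c25d_an: no embedding for exponent 10. -/

open MeasureTheory Matrix

namespace Pool.Agent.R263.SC

theorem E10.om_norm : ‖om‖ = 1 := by
  have h : ‖om‖ ^ 2 = 1 := by
    rw [Complex.sq_norm, Complex.normSq_apply]
    have h3 : Real.sqrt 3 * Real.sqrt 3 = 3 := Real.mul_self_sqrt (by norm_num)
    show 1 / 2 * (1 / 2) + Real.sqrt 3 / 2 * (Real.sqrt 3 / 2) = (1 : ℝ)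
    nlinarith
  exact (pow_eq_one_iff_of_nonneg (norm_nonneg _) two_ne_zero).1 h

theorem E10.cosh10 (w : ℝ) : 2 * Real.cosh (10 * w) =
    2 + 25 * (2 * Real.sinh w) ^ 2 + 50 * ((2 * Real.sinh w) ^ 2) ^ 2
      + 35 * ((2 * Real.sinh w) ^ 2) ^ 3
      + 10 * ((2 * Real.sinh w) ^ 2) ^ 4 + ((2 * Real.sinh w) ^ 2) ^ 5 := by
  rw [Real.cosh_eq, Real.sinh_eq]
  have e1 : Real.exp (10 * w) = (Real.exp w ^ 2) ^ 5 := by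
    rw [← pow_mul, ← Real.exp_nat_mul]
    norm_num
  have e2 : Real.exp (-(10 * w)) = (Real.exp (-w) ^ 2) ^ 5 := by
    rw [← pow_mul, ← Real.exp_nat_mul]
    congr 1
    push_cast
    ring
  have hp : Real.exp w * Real.exp (-w) = 1 := by
    rw [← Real.exp_add]
    simp
  rw [e1, e2]
  clear e1 e2
  generalize Real.exp w = E at *
  generalize Real.exp (-w) = F at *
  have hY : (2 * ((E - F) / 2)) ^ 2 = E ^ 2 + F ^ 2 - 2 := by linear_combination (-2) * hp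
  rw [hY]
  have hAB : E ^ 2 * F ^ 2 = 1 := by rw [← mul_pow, hp, one_pow]
  clear hY
  generalize E ^ 2 = A at *
  generalize F ^ 2 = B at *
  have h5 : A ^ 5 + B ^ 5 = (A + B) ^ 5 - 5 * (A * B) * (A + B) ^ 3
      + 5 * (A * B) ^ 2 * (A + B) := by ring
  rw [hAB] at h5
  linear_combination h5

theorem s_E10 (h4 : S_P4) (hY : S_YOUNG) (hP : S_PH) : S_E10 := by
  rintro ⟨f, g, hf, hg, hE⟩
  set μ : Measure ℝ := volume.restrict (Set.Ioo (0 : ℝ) 1) with hμ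
  have i0 : Integrable (fun t => ‖f t‖ ^ 10) μ := by
    have := hY μ 10 10 0 f g (by norm_num) (by norm_num) le_rfl (by norm_num) hf hg
    simpa using this
  have i1 : Integrable (fun t => ‖f t‖ ^ 8 * ‖g t‖ ^ 2) μ := by
    have := hY μ 10 8 2 f g (by norm_num) (by norm_num) (by norm_num) (by norm_num) hf hg
    simpa using this
  have i2 : Integrable (fun t => ‖f t‖ ^ 6 * ‖g t‖ ^ 4) μ := by
    have := hY μ 10 6 4 f g (by norm_num) (by norm_num) (by norm_num) (by norm_num) hf hg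
    simpa using this
  have i3 : Integrable (fun t => ‖f t‖ ^ 4 * ‖g t‖ ^ 6) μ := by
    have := hY μ 10 4 6 f g (by norm_num) (by norm_num) (by norm_num) (by norm_num) hf hg
    simpa using this
  have i4 : Integrable (fun t => ‖f t‖ ^ 2 * ‖g t‖ ^ 8) μ := by
    have := hY μ 10 2 8 f g (by norm_num) (by norm_num) (by norm_num) (by norm_num) hf hg
    simpa using this
  have i5 : Integrable (fun t => ‖g t‖ ^ 10) μ := by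
    have := hY μ 10 10 0 g f (by norm_num) (by norm_num) le_rfl (by norm_num) hg hf
    simpa using this
  have lin : ∀ c1 c2 c3 c4 c5 : ℝ, ∫ t, (‖f t‖ ^ 10 + c1 * (‖f t‖ ^ 8 * ‖g t‖ ^ 2)
      + c2 * (‖f t‖ ^ 6 * ‖g t‖ ^ 4) + c3 * (‖f t‖ ^ 4 * ‖g t‖ ^ 6)
      + c4 * (‖f t‖ ^ 2 * ‖g t‖ ^ 8) + c5 * ‖g t‖ ^ 10) ∂μ =
      (∫ t, ‖f t‖ ^ 10 ∂μ) + c1 * (∫ t, ‖f t‖ ^ 8 * ‖g t‖ ^ 2 ∂μ)
      + c2 * (∫ t, ‖f t‖ ^ 6 * ‖g t‖ ^ 4 ∂μ) + c3 * (∫ t, ‖f t‖ ^ 4 * ‖g t‖ ^ 6 ∂μ)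
      + c4 * (∫ t, ‖f t‖ ^ 2 * ‖g t‖ ^ 8 ∂μ) + c5 * (∫ t, ‖g t‖ ^ 10 ∂μ) := by
    intro c1 c2 c3 c4 c5
    have a1 : Integrable (fun t => ‖f t‖ ^ 10 + c1 * (‖f t‖ ^ 8 * ‖g t‖ ^ 2)) μ :=
      i0.add (i1.const_mul c1)
    have a2 : Integrable (fun t => ‖f t‖ ^ 10 + c1 * (‖f t‖ ^ 8 * ‖g t‖ ^ 2)
      + c2 * (‖f t‖ ^ 6 * ‖g t‖ ^ 4)) μ := a1.add (i2.const_mul c2)
    have a3 : Integrable (fun t => ‖f t‖ ^ 10 + c1 * (‖f t‖ ^ 8 * ‖g t‖ ^ 2)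
      + c2 * (‖f t‖ ^ 6 * ‖g t‖ ^ 4) + c3 * (‖f t‖ ^ 4 * ‖g t‖ ^ 6)) μ :=
      a2.add (i3.const_mul c3)
    have a4 : Integrable (fun t => ‖f t‖ ^ 10 + c1 * (‖f t‖ ^ 8 * ‖g t‖ ^ 2)
      + c2 * (‖f t‖ ^ 6 * ‖g t‖ ^ 4) + c3 * (‖f t‖ ^ 4 * ‖g t‖ ^ 6)
      + c4 * (‖f t‖ ^ 2 * ‖g t‖ ^ 8)) μ := a3.add (i4.const_mul c4)
    rw [integral_add a4 (i5.const_mul c5), integral_add a3 (i4.const_mul c4),
      integral_add a2 (i3.const_mul c3), integral_add a1 (i2.const_mul c2),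
      integral_add i0 (i1.const_mul c1), integral_const_mul, integral_const_mul,
      integral_const_mul, integral_const_mul, integral_const_mul]
  have key : ∀ w : ℝ, 0 ≤ w → (∫ t, ‖f t‖ ^ 10 ∂μ)
      + 25 * (2 * Real.sinh w) ^ 2 * (∫ t, ‖f t‖ ^ 8 * ‖g t‖ ^ 2 ∂μ)
      + 100 * ((2 * Real.sinh w) ^ 2) ^ 2 * (∫ t, ‖f t‖ ^ 6 * ‖g t‖ ^ 4 ∂μ)
      + 100 * ((2 * Real.sinh w) ^ 2) ^ 3 * (∫ t, ‖f t‖ ^ 4 * ‖g t‖ ^ 6 ∂μ)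
      + 25 * ((2 * Real.sinh w) ^ 2) ^ 4 * (∫ t, ‖f t‖ ^ 2 * ‖g t‖ ^ 8 ∂μ)
      + ((2 * Real.sinh w) ^ 2) ^ 5 * (∫ t, ‖g t‖ ^ 10 ∂μ) = 2 * Real.cosh (10 * w) := by
    intro w hw
    have hy0 : 0 ≤ 2 * Real.sinh w := by
      have := Real.sinh_nonneg_iff.2 hw
      positivity
    obtain ⟨y, hy⟩ : ∃ y : ℝ, y = 2 * Real.sinh w := ⟨_, rfl⟩
    rw [← hy] at hy0 ⊢
    have ik : ∀ k : Fin 6, Integrable
        (fun t => ‖f t + om ^ (k : ℕ) * ((y : ℂ) * g t)‖ ^ 10) μ := by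
      intro k
      have hm : MemLp (fun t => f t + om ^ (k : ℕ) * ((y : ℂ) * g t)) (ENNReal.ofReal 10) μ :=
        hf.add ((hg.const_mul (y : ℂ)).const_mul (om ^ (k : ℕ)))
      have := hY μ 10 10 0 _ g (by norm_num) (by norm_num) le_rfl (by norm_num) hm hg
      simpa using this
    have ek : ∀ k : Fin 6, ∫ t, ‖f t + om ^ (k : ℕ) * ((y : ℂ) * g t)‖ ^ 10 ∂μ =
        2 * Real.cosh (10 * w) := by
      intro k
      have hβ : ‖om ^ (k : ℕ) * (y : ℂ)‖ = 2 * Real.sinh w := by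
        rw [norm_mul, norm_pow, E10.om_norm, one_pow, one_mul, Complex.norm_real,
          Real.norm_eq_abs, abs_of_nonneg hy0, hy]
      have h1 := h4 10 w hw _ hβ
      rw [hE] at h1
      rw [← h1]
      refine integral_congr_ae (Filter.Eventually.of_forall fun t => ?_)
      dsimp only
      rw [one_mul, mul_assoc]
      exact (Real.rpow_ofNat _ _).symm
    have hs : ∫ t, (1 / 6 : ℝ) * ∑ k : Fin 6, ‖f t + om ^ (k : ℕ) * ((y : ℂ) * g t)‖ ^ 10 ∂μ =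
        2 * Real.cosh (10 * w) := by
      rw [integral_const_mul, integral_finset_sum _ (fun k _ => ik k),
        Finset.sum_congr rfl fun k _ => ek k, Finset.sum_const, Finset.card_univ,
        Fintype.card_fin, nsmul_eq_mul]
      push_cast
      ring
    have e1 : ∀ t, (1 / 6 : ℝ) * ∑ k : Fin 6, ‖f t + om ^ (k : ℕ) * ((y : ℂ) * g t)‖ ^ 10 =
        ‖f t‖ ^ 10 + 25 * y ^ 2 * (‖f t‖ ^ 8 * ‖g t‖ ^ 2)
        + 100 * (y ^ 2) ^ 2 * (‖f t‖ ^ 6 * ‖g t‖ ^ 4)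
        + 100 * (y ^ 2) ^ 3 * (‖f t‖ ^ 4 * ‖g t‖ ^ 6)
        + 25 * (y ^ 2) ^ 4 * (‖f t‖ ^ 2 * ‖g t‖ ^ 8) + (y ^ 2) ^ 5 * ‖g t‖ ^ 10 := by
      intro t
      rw [hP.2, norm_mul, Complex.norm_real, Real.norm_eq_abs, abs_of_nonneg hy0]
      ring
    simp only [e1] at hs
    rw [lin] at hs
    exact hs
  have pos := lin (-4) 5 (-2) (1 / 4) 0
  have hq : 0 ≤ ∫ t, (‖f t‖ ^ 10 + (-4) * (‖f t‖ ^ 8 * ‖g t‖ ^ 2)
      + 5 * (‖f t‖ ^ 6 * ‖g t‖ ^ 4) + (-2) * (‖f t‖ ^ 4 * ‖g t‖ ^ 6)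
      + (1 / 4) * (‖f t‖ ^ 2 * ‖g t‖ ^ 8) + 0 * ‖g t‖ ^ 10) ∂μ := by
    refine integral_nonneg fun t => ?_
    have e : ‖f t‖ ^ 10 + (-4) * (‖f t‖ ^ 8 * ‖g t‖ ^ 2)
      + 5 * (‖f t‖ ^ 6 * ‖g t‖ ^ 4) + (-2) * (‖f t‖ ^ 4 * ‖g t‖ ^ 6)
      + (1 / 4) * (‖f t‖ ^ 2 * ‖g t‖ ^ 8) + 0 * ‖g t‖ ^ 10 =
      ‖f t‖ ^ 2 * (‖f t‖ ^ 4 - 2 * ‖f t‖ ^ 2 * ‖g t‖ ^ 2 + (1 / 2) * ‖g t‖ ^ 4) ^ 2 := by ring
    simp only [Pi.zero_apply]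
    rw [e]
    positivity
  rw [pos] at hq
  clear pos lin
  generalize (∫ t, ‖f t‖ ^ 10 ∂μ) = M0 at *
  generalize (∫ t, ‖f t‖ ^ 8 * ‖g t‖ ^ 2 ∂μ) = M1 at *
  generalize (∫ t, ‖f t‖ ^ 6 * ‖g t‖ ^ 4 ∂μ) = M2 at *
  generalize (∫ t, ‖f t‖ ^ 4 * ‖g t‖ ^ 6 ∂μ) = M3 at *
  generalize (∫ t, ‖f t‖ ^ 2 * ‖g t‖ ^ 8 ∂μ) = M4 at *
  generalize (∫ t, ‖g t‖ ^ 10 ∂μ) = M5 at *
  have val : ∀ Y : ℝ, 0 ≤ Y → M0 + 25 * Y * M1 + 100 * Y ^ 2 * M2 + 100 * Y ^ 3 * M3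
      + 25 * Y ^ 4 * M4 + Y ^ 5 * M5 =
      2 + 25 * Y + 50 * Y ^ 2 + 35 * Y ^ 3 + 10 * Y ^ 4 + Y ^ 5 := by
    intro Y hY0
    have hw : 0 ≤ Real.arsinh (Real.sqrt Y / 2) := Real.arsinh_nonneg_iff.2 (by positivity)
    have h1 := key _ hw
    have h2 : (2 * Real.sinh (Real.arsinh (Real.sqrt Y / 2))) ^ 2 = Y := by
      rw [Real.sinh_arsinh]
      have : 2 * (Real.sqrt Y / 2) = Real.sqrt Y := by ring
      rw [this, Real.sq_sqrt hY0]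
    rw [E10.cosh10, h2] at h1
    exact h1
  have v0 := val 0 (by norm_num)
  have v1 := val 1 (by norm_num)
  have v2 := val 2 (by norm_num)
  have v3 := val 3 (by norm_num)
  have v4 := val 4 (by norm_num)
  have v5 := val 5 (by norm_num)
  norm_num at v0 v1 v2 v3 v4 v5
  linarith

end Pool.Agent.R263.SC
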