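import Mathlib
import Pool.Agent.R263.SC.Defs

/-! MP_41c25d_an: from the isometry to the two bounds. -/

open MeasureTheory Matrix

namespace Pool.Agent.R263.SC

theorem norm_om : ‖om‖ = 1 := by
  have h3 : Real.sqrt 3 * Real.sqrt 3 = 3 := Real.mul_self_sqrt (by norm_num)
  have h : Complex.normSq om = 1 := by
    rw [Complex.normSq_apply]
    simp only [om]
    nlinarith
  rw [← Complex.sq_norm] at h
  nlinarith [norm_nonneg om]

theorem int3 {μ : Measure ℝ} {F G H : ℝ → ℝ} (hF : Integrable F μ) (hG : Integrable G μ)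
    (hH : Integrable H μ) (a b : ℝ) : ∫ t, (F t + a * G t + b * H t) ∂μ
      = ∫ t, F t ∂μ + a * ∫ t, G t ∂μ + b * ∫ t, H t ∂μ := by
  have h1 : Integrable (fun t => F t + a * G t) μ := hF.add (hG.const_mul a)
  rw [integral_add h1 (hH.const_mul b), integral_add hF (hG.const_mul a), integral_const_mul,
    integral_const_mul]

theorem int4 {μ : Measure ℝ} {F G H K : ℝ → ℝ} (hF : Integrable F μ) (hG : Integrable G μ)
    (hH : Integrable H μ) (hK : Integrable K μ) (a b c : ℝ) :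
    ∫ t, (F t + a * G t + (b * H t + c * K t)) ∂μ
      = ∫ t, F t ∂μ + a * ∫ t, G t ∂μ + (b * ∫ t, H t ∂μ + c * ∫ t, K t ∂μ) := by
  have h1 : Integrable (fun t => F t + a * G t) μ := hF.add (hG.const_mul a)
  have h2 : Integrable (fun t => b * H t + c * K t) μ := (hH.const_mul b).add (hK.const_mul c)
  rw [integral_add h1 h2, integral_add hF (hG.const_mul a),
    integral_add (hH.const_mul b) (hK.const_mul c), integral_const_mul, integral_const_mul,
    integral_const_mul]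

theorem s_INT (h2 : S_P2) (h3 : S_P3) (hY : S_YOUNG) (hC : S_CS) : S_INT := by
  intro p f g hp hf hg h
  have hp0 : 0 < p := by linarith
  obtain ⟨μ, hμ⟩ : ∃ μ : Measure ℝ, μ = volume.restrict (Set.Ioo (0:ℝ) 1) := ⟨_, rfl⟩
  rw [← hμ] at hf hg
  simp only [← hμ] at h
  obtain ⟨C0, hC0, hP3⟩ := h3 p hp
  -- integrability
  have i0 : Integrable (fun t => ‖f t‖ ^ p) μ := by
    have := hY μ p p 0 f g hp0 hp0.le le_rfl (by ring) hf hg
    simpa using this
  have ip : Integrable (fun t => ‖g t‖ ^ p) μ := by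
    have := hY μ p 0 p f g hp0 le_rfl hp0.le (by ring) hf hg
    simpa using this
  have i2 : Integrable (fun t => ‖f t‖ ^ (p - 2) * ‖g t‖ ^ 2) μ := by
    have := hY μ p (p - 2) ((2 : ℕ) : ℝ) f g hp0 (by linarith) (by positivity)
      (by push_cast; ring) hf hg
    simpa only [Real.rpow_natCast] using this
  have i3 : Integrable (fun t => ‖f t‖ ^ (p - 3) * ‖g t‖ ^ 3) μ := by
    have := hY μ p (p - 3) ((3 : ℕ) : ℝ) f g hp0 (by linarith) (by positivity)
      (by push_cast; ring) hf hg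
    simpa only [Real.rpow_natCast] using this
  have i4 : Integrable (fun t => ‖f t‖ ^ (p - 4) * ‖g t‖ ^ 4) μ := by
    have := hY μ p (p - 4) ((4 : ℕ) : ℝ) f g hp0 (by linarith) (by positivity)
      (by push_cast; ring) hf hg
    simpa only [Real.rpow_natCast] using this
  have iA : ∀ β : ℂ, Integrable (fun t => ‖f t + β * g t‖ ^ p) μ := by
    intro β
    have hm : MemLp (fun t => f t + β * g t) (ENNReal.ofReal p) μ := hf.add (hg.const_mul β)
    have h1 := hm.integrable_norm_rpow (by simpa using hp0) ENNReal.ofReal_ne_top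
    rwa [ENNReal.toReal_ofReal hp0.le] at h1
  have h0 : ∫ t, ‖f t‖ ^ p ∂μ = 2 := by
    have := h 0 le_rfl 0 (by simp)
    simpa using this
  -- the six-phase mean
  have hA : ∀ w : ℝ, 0 ≤ w → Integrable (fun t => A6 p (f t) ((2 * Real.sinh w : ℝ) * g t)) μ ∧
      ∫ t, A6 p (f t) ((2 * Real.sinh w : ℝ) * g t) ∂μ = 2 * Real.cosh (p * w) := by
    intro w hw
    have hs : 0 ≤ Real.sinh w := Real.sinh_nonneg_iff.2 hw
    have heq : (fun t => A6 p (f t) ((2 * Real.sinh w : ℝ) * g t)) = fun t =>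
        (1 / 6) * ∑ k : Fin 6, ‖f t + (om ^ (k : ℕ) * (2 * Real.sinh w : ℝ)) * g t‖ ^ p := by
      funext t
      simp only [A6, mul_assoc]
    have hk : ∀ k : Fin 6, ∫ t, ‖f t + (om ^ (k : ℕ) * (2 * Real.sinh w : ℝ)) * g t‖ ^ p ∂μ
        = 2 * Real.cosh (p * w) := by
      intro k
      apply h w hw
      rw [norm_mul, norm_pow, norm_om, one_pow, one_mul, Complex.norm_real, Real.norm_eq_abs,
        abs_of_nonneg (by positivity)]
    rw [heq]
    refine ⟨(integrable_finsetSum _ fun k _ => iA _).const_mul _, ?_⟩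
    rw [integral_const_mul, integral_finsetSum _ fun k _ => iA _, Finset.sum_congr rfl fun k _ => hk k]
    rw [Finset.sum_const, Finset.card_univ, Fintype.card_fin]
    simp only [nsmul_eq_mul]
    push_cast
    ring
  have hnorm : ∀ w : ℝ, 0 ≤ w → ∀ t, ‖((2 * Real.sinh w : ℝ) : ℂ) * g t‖
      = (2 * Real.sinh w) * ‖g t‖ := by
    intro w hw t
    have hs : 0 ≤ Real.sinh w := Real.sinh_nonneg_iff.2 hw
    rw [norm_mul, Complex.norm_real, Real.norm_eq_abs, abs_of_nonneg (by positivity)]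
  refine ⟨∫ t, ‖f t‖ ^ (p - 2) * ‖g t‖ ^ 2 ∂μ, ∫ t, ‖f t‖ ^ (p - 4) * ‖g t‖ ^ 4 ∂μ,
    C0 * (8 * (∫ t, ‖f t‖ ^ (p - 3) * ‖g t‖ ^ 3 ∂μ)
      + 8 * (2 * Real.sinh 1) ^ (p - 3) * ∫ t, ‖g t‖ ^ p ∂μ), ?_, ?_, ?_, ?_⟩
  · apply integral_nonneg
    intro t
    positivity
  · intro w hw _
    obtain ⟨iA6, hA6⟩ := hA w hw
    have hlow : ∫ t, (‖f t‖ ^ p + (p ^ 2 * Real.sinh w ^ 2) * (‖f t‖ ^ (p - 2) * ‖g t‖ ^ 2)
        + (16 * c2 p * Real.sinh w ^ 4) * (‖f t‖ ^ (p - 4) * ‖g t‖ ^ 4)) ∂μ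
        ≤ ∫ t, A6 p (f t) ((2 * Real.sinh w : ℝ) * g t) ∂μ := by
      refine integral_mono ((i0.add (i2.const_mul _)).add (i4.const_mul _)) iA6 ?_
      intro t
      have := h2 p hp (f t) ((2 * Real.sinh w : ℝ) * g t)
      rw [hnorm w hw t] at this
      refine le_trans (le_of_eq ?_) this
      ring
    rw [hA6, int3 i0 i2 i4, h0] at hlow
    exact hlow
  · intro w hw hw1
    obtain ⟨iA6, hA6⟩ := hA w hw
    have hs : 0 ≤ Real.sinh w := Real.sinh_nonneg_iff.2 hw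
    have hs1 : Real.sinh w ≤ Real.sinh 1 := Real.sinh_le_sinh.2 hw1
    have hup : ∫ t, A6 p (f t) ((2 * Real.sinh w : ℝ) * g t) ∂μ ≤
        ∫ t, (‖f t‖ ^ p + (p ^ 2 * Real.sinh w ^ 2) * (‖f t‖ ^ (p - 2) * ‖g t‖ ^ 2)
        + ((C0 * (8 * Real.sinh w ^ 3)) * (‖f t‖ ^ (p - 3) * ‖g t‖ ^ 3)
        + (C0 * (2 * Real.sinh w) ^ p) * ‖g t‖ ^ p)) ∂μ := by
      refine integral_mono iA6
        ((i0.add (i2.const_mul _)).add ((i3.const_mul _).add (ip.const_mul _))) ?_
      intro t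
      have := hP3 (f t) ((2 * Real.sinh w : ℝ) * g t)
      rw [hnorm w hw t, Real.mul_rpow (by positivity) (norm_nonneg _)] at this
      refine le_trans this (le_of_eq ?_)
      ring
    rw [hA6, int4 i0 i2 i3 ip, h0] at hup
    have hgp : 0 ≤ ∫ t, ‖g t‖ ^ p ∂μ := integral_nonneg fun t => by positivity
    have hpow : (2 * Real.sinh w) ^ p ≤ 8 * Real.sinh w ^ 3 * (2 * Real.sinh 1) ^ (p - 3) := by
      have e1 : (2 * Real.sinh w) ^ p = (2 * Real.sinh w) ^ 3 * (2 * Real.sinh w) ^ (p - 3) := by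
        have := Real.rpow_add_of_nonneg (x := 2 * Real.sinh w) (y := ((3 : ℕ) : ℝ)) (z := p - 3)
          (by positivity) (by positivity) (by linarith)
        rw [Real.rpow_natCast] at this
        rw [← this]
        congr 1
        push_cast
        ring
      have e2 : (2 * Real.sinh w) ^ (p - 3) ≤ (2 * Real.sinh 1) ^ (p - 3) :=
        Real.rpow_le_rpow (by positivity) (by linarith) (by linarith)
      rw [e1]
      calc (2 * Real.sinh w) ^ 3 * (2 * Real.sinh w) ^ (p - 3)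
          ≤ (2 * Real.sinh w) ^ 3 * (2 * Real.sinh 1) ^ (p - 3) :=
            mul_le_mul_of_nonneg_left e2 (by positivity)
        _ = _ := by ring
    have hfin : C0 * (2 * Real.sinh w) ^ p * ∫ t, ‖g t‖ ^ p ∂μ
        ≤ C0 * (8 * Real.sinh w ^ 3 * (2 * Real.sinh 1) ^ (p - 3)) * ∫ t, ‖g t‖ ^ p ∂μ :=
      mul_le_mul_of_nonneg_right (mul_le_mul_of_nonneg_left hpow hC0) hgp
    refine le_trans hup ?_
    have hring : (C0 * (8 * (∫ t, ‖f t‖ ^ (p - 3) * ‖g t‖ ^ 3 ∂μ)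
      + 8 * (2 * Real.sinh 1) ^ (p - 3) * ∫ t, ‖g t‖ ^ p ∂μ)) * Real.sinh w ^ 3
      = C0 * (8 * Real.sinh w ^ 3) * (∫ t, ‖f t‖ ^ (p - 3) * ‖g t‖ ^ 3 ∂μ)
      + C0 * (8 * Real.sinh w ^ 3 * (2 * Real.sinh 1) ^ (p - 3)) * ∫ t, ‖g t‖ ^ p ∂μ := by ring
    rw [hring]
    linarith
  · have := hC μ p f g (by linarith) hf hg
    rw [h0] at this
    exact this

end Pool.Agent.R263.SC
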