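import Mathlib
import Pool.Agent.R263.SC.Defs

open MeasureTheory Matrix

namespace Pool.Agent.R263.SC

theorem s_NEG (h4 : S_P4) (hI : S_INT) (hK : S_CORE) : S_NEG := by
  intro p hp ⟨f, g, hf, hg, h⟩
  obtain ⟨μ₁, μ₂, C, h0, ha, hb, hc⟩ := hI p f g hp hf hg (by
    intro w hw β hβ
    have e1 := h 1 β
    rw [h4 p w hw β hβ] at e1
    rw [e1]
    simp only [one_mul])
  exact hK p μ₁ μ₂ C hp h0 ha hb hc

theorem s_POS (h1 : S_Q1) (h2 : S_Q2) (h3 : S_Q3) (h4 : S_Q4) (h5 : S_Q5) : S_POS := by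
  intro n A B
  obtain ⟨Q, hQ, hQ0, hQt⟩ := h3 n A B
  obtain ⟨N, q, hq, hqs⟩ := h1 Q hQ hQ0
  choose a b hab using fun k => h2 (q k) (hq k)
  obtain ⟨f, g, hf, hg, hfg⟩ := h5 N a b
  refine ⟨f, g, hf, hg, fun α β => ?_⟩
  rw [h4, hfg, hQt]
  have : ∀ k, ‖α * a k + β * b k‖ ^ 4 = ∑ i, ∑ j, (q k i * q k j) * (hh α β i * hh α β j) := by
    intro k
    rw [hab k α β, sq, Finset.sum_mul_sum]
    refine Finset.sum_congr rfl fun i _ => Finset.sum_congr rfl fun j _ => by ring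
  rw [Finset.sum_congr rfl fun k _ => this k]
  symm
  rw [Finset.sum_comm]
  refine Finset.sum_congr rfl fun i _ => ?_
  rw [Finset.sum_comm]
  refine Finset.sum_congr rfl fun j _ => ?_
  rw [hqs, Finset.sum_mul]

end Pool.Agent.R263.SC
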