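import Mathlib
import Pool.Agent.R263.SC.Defs

/-!
A lower bound for real powers by the Taylor polynomial of degree five.
-/

set_option autoImplicit false
set_option linter.all false

namespace Pool.Agent.R263.SC

theorem p1_up {F F' : ℝ → ℝ} (h : ∀ s, HasDerivAt F (F' s) s) (h0 : F 0 = 0)
    (hp : ∀ s, 0 ≤ s → 0 ≤ F' s) (hn : ∀ s, -1 ≤ s → s ≤ 0 → F' s ≤ 0) :
    ∀ s, -1 ≤ s → 0 ≤ F s := by
  have hc : Continuous F := continuous_iff_continuousAt.2 fun s => (h s).continuousAt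
  intro s hs
  rcases le_total 0 s with h1 | h1
  · have h2 : MonotoneOn F (Set.Ici 0) := by
      refine monotoneOn_of_deriv_nonneg (convex_Ici 0) hc.continuousOn
        (fun x _ => (h x).differentiableAt.differentiableWithinAt) fun x hx => ?_
      rw [interior_Ici] at hx
      rw [(h x).deriv]
      exact hp x (le_of_lt hx)
    have h3 := h2 (Set.mem_Ici.2 le_rfl) (Set.mem_Ici.2 h1) h1
    rwa [h0] at h3
  · have h2 : AntitoneOn F (Set.Icc (-1) 0) := by
      refine antitoneOn_of_deriv_nonpos (convex_Icc _ _) hc.continuousOn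
        (fun x _ => (h x).differentiableAt.differentiableWithinAt) fun x hx => ?_
      rw [interior_Icc] at hx
      rw [(h x).deriv]
      exact hn x (le_of_lt hx.1) (le_of_lt hx.2)
    have h3 := h2 (Set.mem_Icc.2 ⟨hs, h1⟩) (Set.mem_Icc.2 ⟨by norm_num, le_rfl⟩) h1
    rwa [h0] at h3

theorem p1_mono {F F' : ℝ → ℝ} (h : ∀ s, HasDerivAt F (F' s) s) (h0 : F 0 = 0)
    (hp : ∀ s, -1 ≤ s → 0 ≤ F' s) :
    (∀ s, 0 ≤ s → 0 ≤ F s) ∧ ∀ s, -1 ≤ s → s ≤ 0 → F s ≤ 0 := by
  have hc : Continuous F := continuous_iff_continuousAt.2 fun s => (h s).continuousAt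
  have h2 : MonotoneOn F (Set.Ici (-1)) := by
    refine monotoneOn_of_deriv_nonneg (convex_Ici _) hc.continuousOn
      (fun x _ => (h x).differentiableAt.differentiableWithinAt) fun x hx => ?_
    rw [interior_Ici] at hx
    rw [(h x).deriv]
    exact hp x (le_of_lt hx)
  have hz : (0 : ℝ) ∈ Set.Ici (-1 : ℝ) := Set.mem_Ici.2 (by norm_num)
  refine ⟨fun s hs => ?_, fun s hs hs' => ?_⟩
  · have h3 := h2 hz (Set.mem_Ici.2 (by linarith)) hs
    rwa [h0] at h3
  · have h3 := h2 (Set.mem_Ici.2 hs) hz hs'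
    rwa [h0] at h3

theorem p1_pow {a : ℝ} (ha : 1 ≤ a) (s : ℝ) :
    HasDerivAt (fun s : ℝ => (1 + s) ^ a) (a * (1 + s) ^ (a - 1)) s := by
  have h0 : HasDerivAt (fun s : ℝ => 1 + s) 1 s := (hasDerivAt_id s).const_add 1
  have h1 := h0.rpow_const (p := a) (Or.inr ha)
  refine h1.congr_deriv ?_
  ring

/-- The powers of `s`. -/
theorem p1_q (c : ℝ) (n : ℕ) (s : ℝ) :
    HasDerivAt (fun s : ℝ => c * s ^ (n + 1)) (c * ((n + 1) * s ^ n)) s := by
  have h1 := (hasDerivAt_pow (n + 1) s).const_mul c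
  simpa using h1

theorem s_P1 : S_P1 := by
  intro m hm s hs
  -- degree 0
  have r0 : (∀ s : ℝ, 0 ≤ s → 0 ≤ (1 + s) ^ (m - 5) - 1) ∧
      ∀ s : ℝ, -1 ≤ s → s ≤ 0 → (1 + s) ^ (m - 5) - 1 ≤ 0 := by
    constructor
    · intro s hs
      have := Real.one_le_rpow (x := 1 + s) (by linarith) (by linarith : (0 : ℝ) ≤ m - 5)
      linarith
    · intro s hs hs'
      have := Real.rpow_le_one (x := 1 + s) (by linarith) (by linarith)
        (by linarith : (0 : ℝ) ≤ m - 5)
      linarith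
  -- degree 1
  have r1 := p1_up (F := fun s : ℝ => (1 + s) ^ (m - 4) - (1 + (m - 4) * s ^ 1))
    (F' := fun s => (m - 4) * ((1 + s) ^ (m - 5) - 1)) (by
      intro s
      have h := (p1_pow (a := m - 4) (by linarith) s).sub ((p1_q (m - 4) 0 s).const_add 1)
      refine h.congr_deriv ?_
      have e : m - 4 - 1 = m - 5 := by ring
      rw [e]
      push_cast
      ring) (by simp) (fun s hs => mul_nonneg (by linarith) (r0.1 s hs))
    (fun s hs hs' => mul_nonpos_of_nonneg_of_nonpos (by linarith) (r0.2 s hs hs'))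
  -- degree 2
  have r2 := p1_mono (F := fun s : ℝ => (1 + s) ^ (m - 3) -
      (1 + (m - 3) * s ^ 1 + (m - 3) * (m - 4) / 2 * s ^ 2))
    (F' := fun s => (m - 3) * ((1 + s) ^ (m - 4) - (1 + (m - 4) * s ^ 1))) (by
      intro s
      have h := (p1_pow (a := m - 3) (by linarith) s).sub (((p1_q (m - 3) 0 s).const_add 1).add
        (p1_q ((m - 3) * (m - 4) / 2) 1 s))
      refine h.congr_deriv ?_
      have e : m - 3 - 1 = m - 4 := by ring
      rw [e]
      push_cast
      ring) (by simp) (fun s hs => mul_nonneg (by linarith) (r1 s hs))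
  -- degree 3
  have r3 := p1_up (F := fun s : ℝ => (1 + s) ^ (m - 2) -
      (1 + (m - 2) * s ^ 1 + (m - 2) * (m - 3) / 2 * s ^ 2 +
        (m - 2) * (m - 3) * (m - 4) / 6 * s ^ 3))
    (F' := fun s => (m - 2) * ((1 + s) ^ (m - 3) -
      (1 + (m - 3) * s ^ 1 + (m - 3) * (m - 4) / 2 * s ^ 2))) (by
      intro s
      have h := (p1_pow (a := m - 2) (by linarith) s).sub ((((p1_q (m - 2) 0 s).const_add 1).add
        (p1_q ((m - 2) * (m - 3) / 2) 1 s)).add (p1_q ((m - 2) * (m - 3) * (m - 4) / 6) 2 s))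
      refine h.congr_deriv ?_
      have e : m - 2 - 1 = m - 3 := by ring
      rw [e]
      push_cast
      ring) (by simp) (fun s hs => mul_nonneg (by linarith) (r2.1 s hs))
    (fun s hs hs' => mul_nonpos_of_nonneg_of_nonpos (by linarith) (r2.2 s hs hs'))
  -- degree 4
  have r4 := p1_mono (F := fun s : ℝ => (1 + s) ^ (m - 1) -
      (1 + (m - 1) * s ^ 1 + (m - 1) * (m - 2) / 2 * s ^ 2 +
        (m - 1) * (m - 2) * (m - 3) / 6 * s ^ 3 +
        (m - 1) * (m - 2) * (m - 3) * (m - 4) / 24 * s ^ 4))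
    (F' := fun s => (m - 1) * ((1 + s) ^ (m - 2) -
      (1 + (m - 2) * s ^ 1 + (m - 2) * (m - 3) / 2 * s ^ 2 +
        (m - 2) * (m - 3) * (m - 4) / 6 * s ^ 3))) (by
      intro s
      have h := (p1_pow (a := m - 1) (by linarith) s).sub (((((p1_q (m - 1) 0 s).const_add 1).add
        (p1_q ((m - 1) * (m - 2) / 2) 1 s)).add (p1_q ((m - 1) * (m - 2) * (m - 3) / 6) 2 s)).add
        (p1_q ((m - 1) * (m - 2) * (m - 3) * (m - 4) / 24) 3 s))
      refine h.congr_deriv ?_
      have e : m - 1 - 1 = m - 2 := by ring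
      rw [e]
      push_cast
      ring) (by simp) (fun s hs => mul_nonneg (by linarith) (r3 s hs))
  -- degree 5
  have r5 := p1_up (F := fun s : ℝ => (1 + s) ^ m -
      (1 + m * s ^ 1 + m * (m - 1) / 2 * s ^ 2 +
        m * (m - 1) * (m - 2) / 6 * s ^ 3 +
        m * (m - 1) * (m - 2) * (m - 3) / 24 * s ^ 4 +
        m * (m - 1) * (m - 2) * (m - 3) * (m - 4) / 120 * s ^ 5))
    (F' := fun s => m * ((1 + s) ^ (m - 1) -
      (1 + (m - 1) * s ^ 1 + (m - 1) * (m - 2) / 2 * s ^ 2 +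
        (m - 1) * (m - 2) * (m - 3) / 6 * s ^ 3 +
        (m - 1) * (m - 2) * (m - 3) * (m - 4) / 24 * s ^ 4))) (by
      intro s
      have h := (p1_pow (a := m) (by linarith) s).sub ((((((p1_q m 0 s).const_add 1).add
        (p1_q (m * (m - 1) / 2) 1 s)).add (p1_q (m * (m - 1) * (m - 2) / 6) 2 s)).add
        (p1_q (m * (m - 1) * (m - 2) * (m - 3) / 24) 3 s)).add
        (p1_q (m * (m - 1) * (m - 2) * (m - 3) * (m - 4) / 120) 4 s))
      refine h.congr_deriv ?_
      push_cast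
      ring) (by simp) (fun s hs => mul_nonneg (by linarith) (r4.1 s hs))
    (fun s hs hs' => mul_nonpos_of_nonneg_of_nonpos (by linarith) (r4.2 s hs hs'))
  have h := r5 s hs
  simp only [pow_one] at h
  linarith

end Pool.Agent.R263.SC
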