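import Mathlib
import Pool.Agent.R263.SC.Defs

/-! MP_41c25d_an: the six-phase lower bound. -/

namespace Pool.Agent.R263.SC

theorem P2.s3 : Real.sqrt 3 * Real.sqrt 3 = 3 := Real.mul_self_sqrt (by norm_num)

theorem P2.om2 : om ^ 2 = ⟨-(1 / 2), Real.sqrt 3 / 2⟩ := by
  have h3 := P2.s3
  unfold om
  rw [pow_two]
  apply Complex.ext
  · simp only [Complex.mul_re]
    nlinarith
  · simp only [Complex.mul_im]
    ring

theorem P2.om3 : om ^ 3 = ⟨-1, 0⟩ := by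
  have h3 := P2.s3
  rw [pow_succ, P2.om2]
  unfold om
  apply Complex.ext
  · simp only [Complex.mul_re]
    nlinarith
  · simp only [Complex.mul_im]
    ring

theorem P2.om4 : om ^ 4 = ⟨-(1 / 2), -(Real.sqrt 3 / 2)⟩ := by
  rw [pow_succ, P2.om3]
  unfold om
  apply Complex.ext
  · simp only [Complex.mul_re]
    ring
  · simp only [Complex.mul_im]
    ring

theorem P2.om5 : om ^ 5 = ⟨1 / 2, -(Real.sqrt 3 / 2)⟩ := by
  have h3 := P2.s3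
  rw [pow_succ, P2.om4]
  unfold om
  apply Complex.ext
  · simp only [Complex.mul_re]
    nlinarith
  · simp only [Complex.mul_im]
    ring

theorem P2.nrm (u v : ℝ) (z : ℂ) : ‖1 + (⟨u, v⟩ : ℂ) * z‖ ^ 2 =
    1 + (2 * (u * z.re - v * z.im) + (u ^ 2 + v ^ 2) * (z.re ^ 2 + z.im ^ 2)) := by
  rw [Complex.sq_norm, Complex.normSq_apply]
  simp only [Complex.add_re, Complex.add_im, Complex.mul_re, Complex.mul_im, Complex.one_re,
    Complex.one_im]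
  ring

/-- the phases -/
noncomputable def P2.s (z : ℂ) (k : ℕ) : ℝ := ‖1 + om ^ k * z‖ ^ 2 - 1

theorem P2.s_eq (z : ℂ) :
    P2.s z 0 = 2 * z.re + (z.re ^ 2 + z.im ^ 2) ∧
    P2.s z 1 = (z.re - Real.sqrt 3 * z.im) + (z.re ^ 2 + z.im ^ 2) ∧
    P2.s z 2 = -(z.re + Real.sqrt 3 * z.im) + (z.re ^ 2 + z.im ^ 2) ∧
    P2.s z 3 = -(2 * z.re) + (z.re ^ 2 + z.im ^ 2) ∧
    P2.s z 4 = -(z.re - Real.sqrt 3 * z.im) + (z.re ^ 2 + z.im ^ 2) ∧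
    P2.s z 5 = (z.re + Real.sqrt 3 * z.im) + (z.re ^ 2 + z.im ^ 2) := by
  have h3 : Real.sqrt 3 ^ 2 = 3 := Real.sq_sqrt (by norm_num)
  have e0 : (1 : ℂ) = ⟨1, 0⟩ := rfl
  have hq : (Real.sqrt 3 / 2) ^ 2 = 3 / 4 := by
    rw [div_pow, h3]
    norm_num
  have h4 : (1 / 2 : ℝ) ^ 2 + (Real.sqrt 3 / 2) ^ 2 = 1 := by
    rw [hq]
    norm_num
  have h5 : (-(1 / 2 : ℝ)) ^ 2 + (Real.sqrt 3 / 2) ^ 2 = 1 := by
    rw [hq]
    norm_num
  have h6 : (-(1 / 2 : ℝ)) ^ 2 + (-(Real.sqrt 3 / 2)) ^ 2 = 1 := by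
    rw [neg_sq (Real.sqrt 3 / 2)]
    exact h5
  have h7 : (1 / 2 : ℝ) ^ 2 + (-(Real.sqrt 3 / 2)) ^ 2 = 1 := by
    rw [neg_sq (Real.sqrt 3 / 2)]
    exact h4
  refine ⟨?_, ?_, ?_, ?_, ?_, ?_⟩
  · unfold P2.s
    have := P2.nrm 1 0 z
    rw [← e0] at this
    rw [pow_zero, this]
    ring
  · unfold P2.s
    have := P2.nrm (1 / 2) (Real.sqrt 3 / 2) z
    rw [h4] at this
    have e : om = ⟨1 / 2, Real.sqrt 3 / 2⟩ := rfl
    rw [pow_one, e, this]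
    ring
  · unfold P2.s
    rw [P2.om2, P2.nrm, h5]
    ring
  · unfold P2.s
    rw [P2.om3, P2.nrm]
    ring
  · unfold P2.s
    rw [P2.om4, P2.nrm, h6]
    ring
  · unfold P2.s
    rw [P2.om5, P2.nrm, h7]
    ring

/-- mean of the fifth order polynomial over the six phases -/
theorem P2.mean (c1 c2 c3 c4 c5 : ℝ) (z : ℂ) (T : ℝ) (hT : T = z.re ^ 2 + z.im ^ 2) :
    ∑ k : Fin 6, (1 + c1 * P2.s z k + c2 * P2.s z k ^ 2 + c3 * P2.s z k ^ 3 + c4 * P2.s z k ^ 4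
      + c5 * P2.s z k ^ 5) = 6 * (1 + c1 * T + c2 * (2 * T + T ^ 2) + c3 * (6 * T ^ 2 + T ^ 3)
        + c4 * (6 * T ^ 2 + 12 * T ^ 3 + T ^ 4) + c5 * (30 * T ^ 3 + 20 * T ^ 4 + T ^ 5)) := by
  obtain ⟨h0, h1, h2, h3, h4, h5⟩ := P2.s_eq z
  have e : ∑ k : Fin 6, (1 + c1 * P2.s z k + c2 * P2.s z k ^ 2 + c3 * P2.s z k ^ 3
      + c4 * P2.s z k ^ 4 + c5 * P2.s z k ^ 5) =
      ∑ k ∈ Finset.range 6, (1 + c1 * P2.s z k + c2 * P2.s z k ^ 2 + c3 * P2.s z k ^ 3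
      + c4 * P2.s z k ^ 4 + c5 * P2.s z k ^ 5) :=
    Fin.sum_univ_eq_sum_range (fun k => 1 + c1 * P2.s z k + c2 * P2.s z k ^ 2 + c3 * P2.s z k ^ 3
      + c4 * P2.s z k ^ 4 + c5 * P2.s z k ^ 5) 6
  rw [e]
  simp only [Finset.sum_range_succ, Finset.sum_range_zero, zero_add]
  rw [h0, h1, h2, h3, h4, h5, ← hT]
  have hr : Real.sqrt 3 ^ 2 = 3 := Real.sq_sqrt (by norm_num)
  generalize Real.sqrt 3 = r at hr
  generalize z.re = x at hT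
  generalize z.im = y at hT
  have hq2 : (x - r * y) ^ 2 + (x + r * y) ^ 2 = 2 * x ^ 2 + 6 * y ^ 2 := by
    linear_combination 2 * y ^ 2 * hr
  have hq4 : (x - r * y) ^ 4 + (x + r * y) ^ 4 = 2 * x ^ 4 + 36 * x ^ 2 * y ^ 2 + 18 * y ^ 4 := by
    linear_combination (12 * x ^ 2 * y ^ 2 + 2 * y ^ 4 * (r ^ 2 + 3)) * hr
  generalize x - r * y = A at hq2 hq4
  generalize x + r * y = B at hq2 hq4
  have hA2 : A ^ 2 + B ^ 2 + (2 * x) ^ 2 = 6 * T := by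
    rw [hq2, hT]
    ring
  have hA4 : A ^ 4 + B ^ 4 + (2 * x) ^ 4 = 18 * T ^ 2 := by
    rw [hq4, hT]
    ring
  linear_combination (2 * c2 + 6 * c3 * T + 12 * c4 * T ^ 2 + 20 * c5 * T ^ 3) * hA2
    + (2 * c4 + 10 * c5 * T) * hA4

theorem P2.key (h : S_P1) (m : ℝ) (hm : 5 < m) (z : ℂ) :
    1 + m ^ 2 * ‖z‖ ^ 2 + (m * (m - 1) / 2) ^ 2 * ‖z‖ ^ 4 ≤
      (1 / 6) * ∑ k : Fin 6, (‖1 + om ^ (k : ℕ) * z‖ ^ 2) ^ m := by
  have hT : ‖z‖ ^ 2 = z.re ^ 2 + z.im ^ 2 := by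
    rw [Complex.sq_norm, Complex.normSq_apply]
    ring
  have hT4 : ‖z‖ ^ 4 = (‖z‖ ^ 2) ^ 2 := by ring
  have h1 : ∀ k : Fin 6, 1 + m * P2.s z k + m * (m - 1) / 2 * P2.s z k ^ 2
      + m * (m - 1) * (m - 2) / 6 * P2.s z k ^ 3
      + m * (m - 1) * (m - 2) * (m - 3) / 24 * P2.s z k ^ 4
      + m * (m - 1) * (m - 2) * (m - 3) * (m - 4) / 120 * P2.s z k ^ 5 ≤
      (‖1 + om ^ (k : ℕ) * z‖ ^ 2) ^ m := by
    intro k
    have h2 := h m hm (P2.s z k) (by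
      unfold P2.s
      nlinarith [sq_nonneg ‖1 + om ^ (k : ℕ) * z‖])
    have h3 : 1 + P2.s z k = ‖1 + om ^ (k : ℕ) * z‖ ^ 2 := by
      unfold P2.s
      ring
    rwa [h3] at h2
  have h2 := Finset.sum_le_sum fun (k : Fin 6) (_ : k ∈ Finset.univ) => h1 k
  rw [P2.mean _ _ _ _ _ z (‖z‖ ^ 2) hT] at h2
  rw [hT4]
  have hTn : 0 ≤ ‖z‖ ^ 2 := by positivity
  generalize ‖z‖ ^ 2 = T at h2 hTn
  have hc3 : 0 ≤ m * (m - 1) * (m - 2) / 6 := by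
    have := mul_nonneg (mul_nonneg (by linarith : (0 : ℝ) ≤ m) (by linarith : (0 : ℝ) ≤ m - 1))
      (by linarith : (0 : ℝ) ≤ m - 2)
    positivity
  have hc4 : 0 ≤ m * (m - 1) * (m - 2) * (m - 3) / 24 := by
    have := mul_nonneg (mul_nonneg (mul_nonneg (by linarith : (0 : ℝ) ≤ m)
      (by linarith : (0 : ℝ) ≤ m - 1)) (by linarith : (0 : ℝ) ≤ m - 2))
      (by linarith : (0 : ℝ) ≤ m - 3)
    positivity
  have hc5 : 0 ≤ m * (m - 1) * (m - 2) * (m - 3) * (m - 4) / 120 := by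
    have := mul_nonneg (mul_nonneg (mul_nonneg (mul_nonneg (by linarith : (0 : ℝ) ≤ m)
      (by linarith : (0 : ℝ) ≤ m - 1)) (by linarith : (0 : ℝ) ≤ m - 2))
      (by linarith : (0 : ℝ) ≤ m - 3)) (by linarith : (0 : ℝ) ≤ m - 4)
    positivity
  have e3 : 0 ≤ m * (m - 1) * (m - 2) / 6 * T ^ 3 := by positivity
  have e4 : 0 ≤ m * (m - 1) * (m - 2) * (m - 3) / 24 * (12 * T ^ 3 + T ^ 4) := by positivity
  have e5 : 0 ≤ m * (m - 1) * (m - 2) * (m - 3) * (m - 4) / 120 *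
      (30 * T ^ 3 + 20 * T ^ 4 + T ^ 5) := by positivity
  linarith

theorem s_P2 (h : S_P1) : S_P2 := by
  intro p hp a b
  by_cases ha : a = 0
  · subst ha
    rw [norm_zero, Real.zero_rpow (by linarith), Real.zero_rpow (by linarith),
      Real.zero_rpow (by linarith)]
    simp only [zero_mul, mul_zero, add_zero]
    unfold A6
    positivity
  · have hn : 0 < ‖a‖ := norm_pos_iff.2 ha
    have hk := P2.key h (p / 2) (by linarith) (b / a)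
    have h1 : ∀ k : Fin 6, ‖a + om ^ (k : ℕ) * b‖ ^ p =
        ‖a‖ ^ p * (‖1 + om ^ (k : ℕ) * (b / a)‖ ^ 2) ^ (p / 2) := by
      intro k
      have e1 : a + om ^ (k : ℕ) * b = a * (1 + om ^ (k : ℕ) * (b / a)) := by
        field_simp
      rw [e1, norm_mul, Real.mul_rpow (norm_nonneg _) (norm_nonneg _)]
      congr 1
      rw [← Real.rpow_natCast, ← Real.rpow_mul (norm_nonneg _)]
      congr 1
      push_cast
      ring
    unfold A6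
    rw [Finset.sum_congr rfl fun k _ => h1 k, ← Finset.mul_sum]
    have hz : ‖b‖ = ‖a‖ * ‖b / a‖ := by
      rw [norm_div]
      field_simp
    have e2 : ‖a‖ ^ (p - 2) * ‖b‖ ^ 2 = ‖a‖ ^ p * ‖b / a‖ ^ 2 := by
      rw [hz, mul_pow, ← mul_assoc, ← Real.rpow_natCast ‖a‖ 2, ← Real.rpow_add hn]
      congr 2
      push_cast
      ring
    have e4 : ‖a‖ ^ (p - 4) * ‖b‖ ^ 4 = ‖a‖ ^ p * ‖b / a‖ ^ 4 := by
      rw [hz, mul_pow, ← mul_assoc, ← Real.rpow_natCast ‖a‖ 4, ← Real.rpow_add hn]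
      congr 2
      push_cast
      ring
    rw [e2, e4]
    unfold c2
    have hP : 0 ≤ ‖a‖ ^ p := by positivity
    have := mul_le_mul_of_nonneg_left hk hP
    linarith

end Pool.Agent.R263.SC
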