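import Mathlib
import Pool.Agent.R263.SC.Defs

/-! SC-P3: six-phase upper bound. -/

open MeasureTheory Matrix

namespace Pool.Agent.R263.SC

namespace P3

/-- mean value step -/
theorem step {f f' : ℝ → ℝ} {K : ℝ} {j : ℕ} (hK : 0 ≤ K) (h0 : f 0 = 0)
    (hd : ∀ x, |x| ≤ 1 → HasDerivAt f (f' x) x) (hb : ∀ x, |x| ≤ 1 → |f' x| ≤ K * |x| ^ j) :
    ∀ x, |x| ≤ 1 → |f x| ≤ K * |x| ^ (j + 1) := by
  intro x hx
  have hsub : ∀ y ∈ Set.uIcc 0 x, |y| ≤ |x| := by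
    intro y hy
    rw [Set.mem_uIcc] at hy
    rcases hy with ⟨h1, h2⟩ | ⟨h1, h2⟩
    · rw [abs_of_nonneg h1, abs_of_nonneg (h1.trans h2)]
      exact h2
    · rw [abs_of_nonpos h2, abs_of_nonpos (h1.trans h2)]
      linarith
  have h := (convex_uIcc 0 x).norm_image_sub_le_of_norm_hasDerivWithin_le (f := f) (f' := f')
    (C := K * |x| ^ j)
    (fun y hy => (hd y ((hsub y hy).trans hx)).hasDerivWithinAt)
    (fun y hy => (hb y ((hsub y hy).trans hx)).trans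
      (mul_le_mul_of_nonneg_left (pow_le_pow_left₀ (abs_nonneg y) (hsub y hy) j) hK))
    Set.left_mem_uIcc Set.right_mem_uIcc
  rw [h0, sub_zero, sub_zero, Real.norm_eq_abs, Real.norm_eq_abs] at h
  rw [pow_succ, ← mul_assoc]
  exact h

theorem hr (r : ℝ) (h1 : 1 ≤ r) (s : ℝ) :
    HasDerivAt (fun s : ℝ => (1 + s) ^ r) (r * (1 + s) ^ (r - 1)) s := by
  have h := ((hasDerivAt_id s).const_add 1).rpow_const (p := r) (Or.inr h1)
  refine h.congr_deriv ?_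
  simp

theorem one_var {m : ℝ} (hm : 5 < m) : ∃ C1 : ℝ, 0 ≤ C1 ∧ ∀ s : ℝ, -1 ≤ s →
    (1 + s) ^ m ≤ 1 + m * s + m * (m - 1) / 2 * s ^ 2 + C1 * (|s| ^ 3 + |s| ^ m) := by
  set K : ℝ := (m - 2) * 2 ^ (m - 2 - 1) with hKdef
  have hK : 0 ≤ K := mul_nonneg (by linarith) (Real.rpow_nonneg (by norm_num) _)
  have b1 : ∀ x : ℝ, |x| ≤ 1 → |(1 + x) ^ (m - 2) - 1| ≤ K * |x| ^ (0 + 1) := by
    refine step (f := fun x => (1 + x) ^ (m - 2) - 1)
      (f' := fun x => (m - 2) * (1 + x) ^ (m - 2 - 1)) hK (by simp) ?_ ?_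
    · intro x _
      exact (hr (m - 2) (by linarith) x).sub_const 1
    · intro x hx
      obtain ⟨h1, h2⟩ := abs_le.1 hx
      have h3 : 0 ≤ 1 + x := by linarith
      have h4 : 0 ≤ (m - 2) * (1 + x) ^ (m - 2 - 1) :=
        mul_nonneg (by linarith) (Real.rpow_nonneg h3 _)
      rw [abs_of_nonneg h4, pow_zero, mul_one]
      exact mul_le_mul_of_nonneg_left
        (Real.rpow_le_rpow h3 (by linarith) (by linarith)) (by linarith)
  have b2 : ∀ x : ℝ, |x| ≤ 1 → |(1 + x) ^ (m - 1) - 1 - (m - 1) * x| ≤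
      (m - 1) * K * |x| ^ (1 + 1) := by
    refine step (f := fun x => (1 + x) ^ (m - 1) - 1 - (m - 1) * x)
      (f' := fun x => (m - 1) * ((1 + x) ^ (m - 2) - 1))
      (mul_nonneg (by linarith) hK) (by simp) ?_ ?_
    · intro x _
      have h := ((hr (m - 1) (by linarith) x).sub_const 1).sub
        ((hasDerivAt_id x).const_mul (m - 1))
      refine h.congr_deriv ?_
      rw [show m - 1 - 1 = m - 2 by ring]
      ring
    · intro x hx
      rw [abs_mul, abs_of_nonneg (by linarith : (0 : ℝ) ≤ m - 1), mul_assoc]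
      exact mul_le_mul_of_nonneg_left (b1 x hx) (by linarith)
  have b3 : ∀ x : ℝ, |x| ≤ 1 → |(1 + x) ^ m - 1 - m * x - m * (m - 1) / 2 * x ^ 2| ≤
      m * ((m - 1) * K) * |x| ^ (2 + 1) := by
    refine step (f := fun x => (1 + x) ^ m - 1 - m * x - m * (m - 1) / 2 * x ^ 2)
      (f' := fun x => m * ((1 + x) ^ (m - 1) - 1 - (m - 1) * x))
      (mul_nonneg (by linarith) (mul_nonneg (by linarith) hK)) (by simp) ?_ ?_
    · intro x _
      have h := (((hr m (by linarith) x).sub_const 1).sub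
        ((hasDerivAt_id x).const_mul m)).sub ((hasDerivAt_pow 2 x).const_mul (m * (m - 1) / 2))
      refine h.congr_deriv ?_
      simp only [Nat.cast_ofNat]
      ring
    · intro x hx
      rw [abs_mul, abs_of_nonneg (by linarith : (0 : ℝ) ≤ m), mul_assoc]
      exact mul_le_mul_of_nonneg_left (b2 x hx) (by linarith)
  have hC0 : 0 ≤ m * ((m - 1) * K) := mul_nonneg (by linarith) (mul_nonneg (by linarith) hK)
  have h2m : (0 : ℝ) ≤ 2 ^ m := Real.rpow_nonneg (by norm_num) _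
  refine ⟨m * ((m - 1) * K) + 2 ^ m, by linarith, fun s hs => ?_⟩
  have e1 : 0 ≤ |s| ^ 3 := pow_nonneg (abs_nonneg s) 3
  have e2 : 0 ≤ |s| ^ m := Real.rpow_nonneg (abs_nonneg s) m
  rcases le_or_gt |s| 1 with h | h
  · have h3 := (abs_le.1 (b3 s h)).2
    have h4 : (0 : ℝ) ≤ 2 ^ m * (|s| ^ 3 + |s| ^ m) := mul_nonneg h2m (by linarith)
    have h5 : (0 : ℝ) ≤ m * ((m - 1) * K) * |s| ^ m := mul_nonneg hC0 e2
    have h6 : (m * ((m - 1) * K) + 2 ^ m) * (|s| ^ 3 + |s| ^ m) =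
        m * ((m - 1) * K) * |s| ^ (2 + 1) + m * ((m - 1) * K) * |s| ^ m +
          2 ^ m * (|s| ^ 3 + |s| ^ m) := by ring
    rw [h6]
    linarith
  · have hs1 : 1 < s := by
      rcases lt_abs.1 h with h | h
      · exact h
      · linarith
    have hs0 : |s| = s := abs_of_pos (by linarith)
    rw [hs0] at e1 e2 ⊢
    have h3 : (1 + s) ^ m ≤ (2 * s) ^ m :=
      Real.rpow_le_rpow (by linarith) (by linarith) (by linarith)
    rw [Real.mul_rpow (by norm_num) (by linarith)] at h3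
    have h4 : 0 ≤ m * s := mul_nonneg (by linarith) (by linarith)
    have h5 : 0 ≤ m * (m - 1) / 2 * s ^ 2 :=
      mul_nonneg (div_nonneg (mul_nonneg (by linarith) (by linarith)) (by norm_num)) (sq_nonneg s)
    have h6 : (m * ((m - 1) * K) + 2 ^ m) * (s ^ 3 + s ^ m) =
        m * ((m - 1) * K) * (s ^ 3 + s ^ m) + 2 ^ m * s ^ 3 + 2 ^ m * s ^ m := by ring
    have h7 : 0 ≤ m * ((m - 1) * K) * (s ^ 3 + s ^ m) := mul_nonneg hC0 (by linarith)
    have h8 : 0 ≤ 2 ^ m * s ^ 3 := mul_nonneg h2m e1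
    rw [h6]
    linarith

theorem om_norm : ‖om‖ = 1 := by
  have h : ‖om‖ ^ 2 = 1 := by
    rw [Complex.sq_norm, Complex.normSq_apply]
    simp only [om]
    have h3 : Real.sqrt 3 * Real.sqrt 3 = 3 := Real.mul_self_sqrt (by norm_num)
    nlinarith
  have h0 := norm_nonneg om
  nlinarith

theorem om_sq : om ^ 2 = om - 1 := by
  have h3 : Real.sqrt 3 * Real.sqrt 3 = 3 := Real.mul_self_sqrt (by norm_num)
  apply Complex.ext
  · simp only [pow_two, Complex.mul_re, Complex.sub_re, Complex.one_re, om]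
    nlinarith
  · simp only [pow_two, Complex.mul_im, Complex.sub_im, Complex.one_im, om]
    nlinarith

/-- the real part of a phase -/
noncomputable def c (z : ℂ) (k : Fin 6) : ℝ := 2 * (om ^ (k : ℕ) * z).re

theorem c_abs (z : ℂ) (k : Fin 6) : |c z k| ≤ 2 * ‖z‖ := by
  unfold c
  have h := Complex.abs_re_le_norm (om ^ (k : ℕ) * z)
  rw [norm_mul, norm_pow, om_norm, one_pow, one_mul] at h
  rw [abs_mul, abs_of_pos (by norm_num : (0 : ℝ) < 2)]
  linarith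

theorem norm_sq (z : ℂ) (k : Fin 6) : ‖1 + om ^ (k : ℕ) * z‖ ^ 2 = 1 + (c z k + ‖z‖ ^ 2) := by
  have h : ‖om ^ (k : ℕ) * z‖ ^ 2 = ‖z‖ ^ 2 := by
    rw [norm_mul, norm_pow, om_norm, one_pow, one_mul]
  rw [← h]
  unfold c
  set w := om ^ (k : ℕ) * z
  rw [Complex.sq_norm, Complex.sq_norm, Complex.normSq_apply, Complex.normSq_apply,
    Complex.add_re, Complex.add_im, Complex.one_re, Complex.one_im]
  ring

theorem om3 : om ^ 3 = -1 := by
  have h := om_sq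
  calc om ^ 3 = om * om ^ 2 := by ring
    _ = om * (om - 1) := by rw [h]
    _ = om ^ 2 - om := by ring
    _ = -1 := by rw [h]; ring

theorem om4 : om ^ 4 = -om := by
  calc om ^ 4 = om ^ 3 * om := by ring
    _ = -om := by rw [om3]; ring

theorem om5 : om ^ 5 = 1 - om := by
  calc om ^ 5 = om ^ 3 * om ^ 2 := by ring
    _ = 1 - om := by rw [om3, om_sq]; ring

theorem c_vals (z : ℂ) : c z 0 = 2 * z.re ∧ c z 1 = z.re - Real.sqrt 3 * z.im ∧
    c z 2 = -z.re - Real.sqrt 3 * z.im ∧ c z 3 = - (2 * z.re) ∧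
    c z 4 = -(z.re - Real.sqrt 3 * z.im) ∧ c z 5 = z.re + Real.sqrt 3 * z.im := by
  refine ⟨?_, ?_, ?_, ?_, ?_, ?_⟩
  · show 2 * (om ^ 0 * z).re = _
    rw [pow_zero, one_mul]
  · show 2 * (om ^ 1 * z).re = _
    rw [pow_one, Complex.mul_re]
    simp only [om]
    ring
  · show 2 * (om ^ 2 * z).re = _
    rw [om_sq, Complex.mul_re, Complex.sub_re, Complex.sub_im, Complex.one_re, Complex.one_im]
    simp only [om]
    ring
  · show 2 * (om ^ 3 * z).re = _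
    rw [om3, neg_mul, one_mul, Complex.neg_re]
    ring
  · show 2 * (om ^ 4 * z).re = _
    rw [om4, neg_mul, Complex.neg_re, Complex.mul_re]
    simp only [om]
    ring
  · show 2 * (om ^ 5 * z).re = _
    rw [om5, Complex.mul_re, Complex.sub_re, Complex.sub_im, Complex.one_re, Complex.one_im]
    simp only [om]
    ring

theorem sum_c (z : ℂ) : ∑ k, c z k = 0 := by
  obtain ⟨h0, h1, h2, h3, h4, h5⟩ := c_vals z
  rw [Fin.sum_univ_six, h0, h1, h2, h3, h4, h5]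
  ring

theorem sum_c_sq (z : ℂ) : ∑ k, c z k ^ 2 = 12 * ‖z‖ ^ 2 := by
  obtain ⟨h0, h1, h2, h3, h4, h5⟩ := c_vals z
  have hr3 : Real.sqrt 3 * Real.sqrt 3 = 3 := Real.mul_self_sqrt (by norm_num)
  rw [Fin.sum_univ_six, h0, h1, h2, h3, h4, h5, Complex.sq_norm, Complex.normSq_apply]
  have e : (2 * z.re) ^ 2 + (z.re - Real.sqrt 3 * z.im) ^ 2 + (-z.re - Real.sqrt 3 * z.im) ^ 2 +
      (-(2 * z.re)) ^ 2 + (-(z.re - Real.sqrt 3 * z.im)) ^ 2 + (z.re + Real.sqrt 3 * z.im) ^ 2 =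
      12 * z.re * z.re + 4 * (Real.sqrt 3 * Real.sqrt 3) * (z.im * z.im) := by ring
  rw [e, hr3]
  ring

theorem powers {m t : ℝ} (hm : 5 < m) (ht : 0 ≤ t) :
    t ^ 4 ≤ t ^ 3 + t ^ (2 * m) ∧ (2 * t + t ^ 2) ^ 3 ≤ 27 * (t ^ 3 + t ^ (2 * m)) ∧
      (2 * t + t ^ 2) ^ m ≤ 3 ^ m * (t ^ 3 + t ^ (2 * m)) := by
  have h3m : (0 : ℝ) ≤ 3 ^ m := Real.rpow_nonneg (by norm_num) _
  have e0 : 0 ≤ t ^ (2 * m) := Real.rpow_nonneg ht _
  have e3 : 0 ≤ t ^ 3 := pow_nonneg ht 3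
  have hs0 : 0 ≤ 2 * t + t ^ 2 := by positivity
  rcases le_or_gt t 1 with h | h
  · have h1 : 2 * t + t ^ 2 ≤ 3 * t := by nlinarith
    refine ⟨?_, ?_, ?_⟩
    · have : t ^ 4 ≤ t ^ 3 := pow_le_pow_of_le_one ht h (by norm_num)
      linarith
    · have h2 := pow_le_pow_left₀ hs0 h1 3
      have h3 : (3 * t) ^ 3 = 27 * t ^ 3 := by ring
      linarith
    · have h2 := Real.rpow_le_rpow hs0 h1 (by linarith : (0 : ℝ) ≤ m)
      rw [Real.mul_rpow (by norm_num) ht] at h2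
      have h4 : t ^ m ≤ t ^ (3 : ℝ) := by
        rcases eq_or_lt_of_le ht with h0 | h0
        · rw [← h0, Real.zero_rpow (by linarith), Real.zero_rpow (by norm_num)]
        · exact Real.rpow_le_rpow_of_exponent_ge h0 h (by linarith)
      have h5 : t ^ (3 : ℝ) = t ^ 3 := by
        rw [← Real.rpow_natCast]
        norm_num
      rw [h5] at h4
      have h6 := mul_le_mul_of_nonneg_left h4 h3m
      have h7 := mul_nonneg h3m e0
      calc (2 * t + t ^ 2) ^ m ≤ 3 ^ m * t ^ m := h2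
        _ ≤ 3 ^ m * t ^ 3 := h6
        _ ≤ 3 ^ m * (t ^ 3 + t ^ (2 * m)) := by
          rw [mul_add]
          linarith
  · have h1 : 2 * t + t ^ 2 ≤ 3 * t ^ 2 := by nlinarith
    have hn : ∀ n : ℕ, (n : ℝ) ≤ 2 * m → t ^ n ≤ t ^ (2 * m) := by
      intro n hn
      rw [← Real.rpow_natCast]
      exact Real.rpow_le_rpow_of_exponent_le h.le hn
    refine ⟨?_, ?_, ?_⟩
    · have := hn 4 (by push_cast; linarith)
      linarith
    · have h2 := pow_le_pow_left₀ hs0 h1 3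
      have h3 : (3 * t ^ 2) ^ 3 = 27 * t ^ 6 := by ring
      have := hn 6 (by push_cast; linarith)
      linarith
    · have h2 := Real.rpow_le_rpow hs0 h1 (by linarith : (0 : ℝ) ≤ m)
      rw [Real.mul_rpow (by norm_num) (by positivity)] at h2
      have h4 : (t ^ 2) ^ m = t ^ (2 * m) := by
        rw [Real.rpow_mul ht]
        norm_num
      rw [h4] at h2
      have h7 := mul_nonneg h3m e3
      calc (2 * t + t ^ 2) ^ m ≤ 3 ^ m * t ^ (2 * m) := h2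
        _ ≤ 3 ^ m * (t ^ 3 + t ^ (2 * m)) := by
          rw [mul_add]
          linarith

/-- the case `a = 1` -/
theorem unit_case {p : ℝ} (hp : 10 < p) : ∃ C : ℝ, 1 ≤ C ∧ ∀ z : ℂ,
    A6 p 1 z ≤ 1 + (p / 2) ^ 2 * ‖z‖ ^ 2 + C * (‖z‖ ^ 3 + ‖z‖ ^ p) := by
  have hm : 5 < p / 2 := by linarith
  obtain ⟨C1, hC1, h1⟩ := one_var hm
  set m := p / 2 with hmdef
  have h2m : 2 * m = p := by rw [hmdef]; ring
  have h3m : (0 : ℝ) ≤ 3 ^ m := Real.rpow_nonneg (by norm_num) _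
  have hmm : 0 ≤ m * (m - 1) / 2 :=
    div_nonneg (mul_nonneg (by linarith) (by linarith)) (by norm_num)
  have hCn : 0 ≤ C1 * (27 + 3 ^ m) := mul_nonneg hC1 (by linarith)
  refine ⟨1 + m * (m - 1) / 2 + C1 * (27 + 3 ^ m), by linarith, fun z => ?_⟩
  set t := ‖z‖ with htdef
  have ht : 0 ≤ t := norm_nonneg z
  have hs : ∀ k, -1 ≤ c z k + t ^ 2 := by
    intro k
    have h2 := norm_sq z k
    have h3 := sq_nonneg ‖1 + om ^ (k : ℕ) * z‖
    linarith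
  have hk : ∀ k : Fin 6, ‖1 + om ^ (k : ℕ) * z‖ ^ p = (1 + (c z k + t ^ 2)) ^ m := by
    intro k
    rw [← norm_sq z k, ← h2m, Real.rpow_mul (norm_nonneg _)]
    norm_num
  have habs : ∀ k, |c z k + t ^ 2| ≤ 2 * t + t ^ 2 := by
    intro k
    have h2 := abs_add_le (c z k) (t ^ 2)
    have h3 := c_abs z k
    rw [abs_of_nonneg (sq_nonneg t)] at h2
    linarith
  obtain ⟨q1, q2, q3⟩ := powers hm ht
  rw [h2m] at q1 q2 q3
  have hterm : ∀ k ∈ (Finset.univ : Finset (Fin 6)), ‖1 + om ^ (k : ℕ) * z‖ ^ p ≤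
      1 + m * (c z k + t ^ 2) + m * (m - 1) / 2 * (c z k + t ^ 2) ^ 2 +
        C1 * (27 + 3 ^ m) * (t ^ 3 + t ^ p) := by
    intro k _
    rw [hk k]
    refine (h1 _ (hs k)).trans ?_
    have h2 : |c z k + t ^ 2| ^ 3 ≤ (2 * t + t ^ 2) ^ 3 :=
      pow_le_pow_left₀ (abs_nonneg _) (habs k) 3
    have h3 : |c z k + t ^ 2| ^ m ≤ (2 * t + t ^ 2) ^ m :=
      Real.rpow_le_rpow (abs_nonneg _) (habs k) (by linarith)
    have h4 : C1 * (|c z k + t ^ 2| ^ 3 + |c z k + t ^ 2| ^ m) ≤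
        C1 * (27 * (t ^ 3 + t ^ p) + 3 ^ m * (t ^ 3 + t ^ p)) :=
      mul_le_mul_of_nonneg_left (by linarith) hC1
    have h5 : C1 * (27 * (t ^ 3 + t ^ p) + 3 ^ m * (t ^ 3 + t ^ p)) =
        C1 * (27 + 3 ^ m) * (t ^ 3 + t ^ p) := by ring
    linarith
  have hsum := Finset.sum_le_sum hterm
  have e1 : ∑ k : Fin 6, (1 + m * (c z k + t ^ 2) + m * (m - 1) / 2 * (c z k + t ^ 2) ^ 2 +
        C1 * (27 + 3 ^ m) * (t ^ 3 + t ^ p)) =
      6 + m * (∑ k, c z k + 6 * t ^ 2) + m * (m - 1) / 2 *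
        (∑ k, c z k ^ 2 + 2 * t ^ 2 * ∑ k, c z k + 6 * t ^ 4) +
        6 * (C1 * (27 + 3 ^ m) * (t ^ 3 + t ^ p)) := by
    simp only [Fin.sum_univ_six]
    ring
  rw [e1, sum_c, sum_c_sq] at hsum
  have hA : A6 p 1 z = (1 / 6) * ∑ k : Fin 6, ‖1 + om ^ (k : ℕ) * z‖ ^ p := rfl
  rw [hA]
  have hp0 : 0 ≤ t ^ 3 + t ^ p := by
    have := pow_nonneg ht 3
    have := Real.rpow_nonneg ht p
    linarith
  have q4 := mul_le_mul_of_nonneg_left q1 hmm
  have e2 : (1 + m * (m - 1) / 2 + C1 * (27 + 3 ^ m)) * (t ^ 3 + t ^ p) =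
      (t ^ 3 + t ^ p) + m * (m - 1) / 2 * (t ^ 3 + t ^ p) +
        C1 * (27 + 3 ^ m) * (t ^ 3 + t ^ p) := by ring
  rw [e2]
  have e3 : (1 / 6) * (6 + m * (0 + 6 * t ^ 2) + m * (m - 1) / 2 *
      (12 * t ^ 2 + 2 * t ^ 2 * 0 + 6 * t ^ 4) +
      6 * (C1 * (27 + 3 ^ m) * (t ^ 3 + t ^ p))) =
      1 + m ^ 2 * t ^ 2 + m * (m - 1) / 2 * t ^ 4 + C1 * (27 + 3 ^ m) * (t ^ 3 + t ^ p) := by
    ring
  have h6 := mul_le_mul_of_nonneg_left hsum (by norm_num : (0 : ℝ) ≤ 1 / 6)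
  rw [← htdef] at h6
  rw [e3] at h6
  linarith

end P3

theorem s_P3 : S_P3 := by
  intro p hp
  obtain ⟨C, hC, h⟩ := P3.unit_case hp
  refine ⟨C, by linarith, fun a b => ?_⟩
  by_cases ha : a = 0
  · subst ha
    have e : A6 p 0 b = ‖b‖ ^ p := by
      unfold A6
      have : ∀ k : Fin 6, ‖0 + om ^ (k : ℕ) * b‖ ^ p = ‖b‖ ^ p := by
        intro k
        rw [zero_add, norm_mul, norm_pow, P3.om_norm, one_pow, one_mul]
      simp only [this, Finset.sum_const, Finset.card_univ, Fintype.card_fin, nsmul_eq_mul]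
      push_cast
      ring
    rw [e, norm_zero, Real.zero_rpow (by linarith), Real.zero_rpow (by linarith),
      Real.zero_rpow (by linarith)]
    have h0 : 0 ≤ ‖b‖ ^ p := Real.rpow_nonneg (norm_nonneg b) p
    nlinarith
  · have hna : 0 < ‖a‖ := norm_pos_iff.2 ha
    have hz := h (b / a)
    have hap : 0 < ‖a‖ ^ p := Real.rpow_pos_of_pos hna p
    have e : A6 p a b = ‖a‖ ^ p * A6 p 1 (b / a) := by
      have hk : ∀ k : Fin 6, ‖a + om ^ (k : ℕ) * b‖ ^ p =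
          ‖a‖ ^ p * ‖1 + om ^ (k : ℕ) * (b / a)‖ ^ p := by
        intro k
        rw [← Real.mul_rpow (norm_nonneg _) (norm_nonneg _), ← norm_mul]
        have e1 : a * (1 + om ^ (k : ℕ) * (b / a)) = a + om ^ (k : ℕ) * b := by
          field_simp
        rw [e1]
      unfold A6
      rw [Finset.sum_congr rfl (fun (k : Fin 6) _ => hk k), ← Finset.mul_sum]
      ring
    have hmul := mul_le_mul_of_nonneg_left hz hap.le
    rw [← e] at hmul
    refine hmul.trans (le_of_eq ?_)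
    have hzn : ‖b / a‖ = ‖b‖ / ‖a‖ := norm_div b a
    have r2 : ‖a‖ ^ p = ‖a‖ ^ (p - 2) * ‖a‖ ^ 2 := by
      rw [← Real.rpow_natCast, ← Real.rpow_add hna]
      norm_num
    have r3 : ‖a‖ ^ p = ‖a‖ ^ (p - 3) * ‖a‖ ^ 3 := by
      rw [← Real.rpow_natCast, ← Real.rpow_add hna]
      norm_num
    have t2 : ‖a‖ ^ p * ‖b / a‖ ^ 2 = ‖a‖ ^ (p - 2) * ‖b‖ ^ 2 := by
      rw [hzn, r2]
      field_simp
    have t3 : ‖a‖ ^ p * ‖b / a‖ ^ 3 = ‖a‖ ^ (p - 3) * ‖b‖ ^ 3 := by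
      rw [hzn, r3]
      field_simp
    have tp : ‖a‖ ^ p * ‖b / a‖ ^ p = ‖b‖ ^ p := by
      rw [hzn, Real.div_rpow (norm_nonneg b) hna.le]
      field_simp
    calc ‖a‖ ^ p * (1 + (p / 2) ^ 2 * ‖b / a‖ ^ 2 + C * (‖b / a‖ ^ 3 + ‖b / a‖ ^ p))
        = ‖a‖ ^ p + (p / 2) ^ 2 * (‖a‖ ^ p * ‖b / a‖ ^ 2) +
          C * (‖a‖ ^ p * ‖b / a‖ ^ 3 + ‖a‖ ^ p * ‖b / a‖ ^ p) := by ring
      _ = _ := by rw [t2, t3, tp]

end Pool.Agent.R263.SC
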