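import Mathlib
import Pool.Agent.R263.SC.Defs

open MeasureTheory Matrix

namespace Pool.Agent.R263.SC

theorem s_P4 : S_P4 := by
  intro p w hw β hβ
  set M : Matrix (Fin 2) (Fin 2) ℂ := (1:ℂ) • (1 : Matrix (Fin 2) (Fin 2) ℂ) + β • JJ with hM
  have hM2 : M = !![1, β; 0, 1] := by
    rw [hM]
    ext i j
    fin_cases i <;> fin_cases j <;> simp [JJ]
  have hH := Matrix.isHermitian_conjTranspose_mul_self M
  have hprod : Mᴴ * M = !![1, β; (starRingEnd ℂ) β, (starRingEnd ℂ) β * β + 1] := by
    rw [hM2]
    ext i j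
    fin_cases i <;> fin_cases j <;> simp [Matrix.mul_apply, Fin.sum_univ_two]
  have hsum : (Matrix.isHermitian_conjTranspose_mul_self M).eigenvalues 0 +
      (Matrix.isHermitian_conjTranspose_mul_self M).eigenvalues 1 = 2 + ‖β‖ ^ 2 := by
    have h1 := (Matrix.isHermitian_conjTranspose_mul_self M).trace_eq_sum_eigenvalues
    rw [Fin.sum_univ_two] at h1
    have h2 : (Mᴴ * M).trace = ((2 + ‖β‖ ^ 2 : ℝ) : ℂ) := by
      rw [hprod, Matrix.trace_fin_two]
      simp only [Matrix.of_apply, Matrix.cons_val', Matrix.cons_val_zero, Matrix.cons_val_one,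
        Matrix.cons_val_fin_one]
      rw [mul_comm, Complex.mul_conj, Complex.normSq_eq_norm_sq]
      push_cast
      ring
    rw [h2] at h1
    apply Complex.ofReal_injective
    rw [h1, Complex.ofReal_add]
    rfl
  have hdet : (Matrix.isHermitian_conjTranspose_mul_self M).eigenvalues 0 *
      (Matrix.isHermitian_conjTranspose_mul_self M).eigenvalues 1 = 1 := by
    have h1 := (Matrix.isHermitian_conjTranspose_mul_self M).det_eq_prod_eigenvalues
    rw [Fin.prod_univ_two] at h1
    have h2 : (Mᴴ * M).det = ((1 : ℝ) : ℂ) := by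
      rw [hprod, Matrix.det_fin_two]
      simp only [Matrix.of_apply, Matrix.cons_val', Matrix.cons_val_zero, Matrix.cons_val_one,
        Matrix.cons_val_fin_one]
      push_cast
      ring
    rw [h2] at h1
    apply Complex.ofReal_injective
    rw [h1, Complex.ofReal_mul]
    rfl
  unfold schattenPow
  rw [Fin.sum_univ_two]
  generalize (Matrix.isHermitian_conjTranspose_mul_self M).eigenvalues 0 = a at *
  generalize (Matrix.isHermitian_conjTranspose_mul_self M).eigenvalues 1 = b at *
  have hE : Real.exp (2 * w) * Real.exp (-(2 * w)) = 1 := by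
    rw [← Real.exp_add, add_neg_cancel, Real.exp_zero]
  have hS : 2 + ‖β‖ ^ 2 = Real.exp (2 * w) + Real.exp (-(2 * w)) := by
    rw [hβ, Real.sinh_eq]
    have e1 : Real.exp (2 * w) = Real.exp w ^ 2 := by
      rw [← Real.exp_nat_mul]
      norm_num
    have e2 : Real.exp (-(2 * w)) = Real.exp (-w) ^ 2 := by
      rw [← Real.exp_nat_mul]
      congr 1
      push_cast
      ring
    have e3 : Real.exp w * Real.exp (-w) = 1 := by
      rw [← Real.exp_add, add_neg_cancel, Real.exp_zero]
    rw [e1, e2]
    linear_combination (-2 : ℝ) * e3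
  have hp1 : ∀ s : ℝ, Real.exp (2 * s) ^ (p / 2) = Real.exp (p * s) := by
    intro s
    rw [← Real.exp_mul]
    congr 1
    ring
  have hp2 : Real.exp (-(2 * w)) ^ (p / 2) = Real.exp (-(p * w)) := by
    rw [← Real.exp_mul]
    congr 1
    ring
  have hfac : (a - Real.exp (2 * w)) * (a - Real.exp (-(2 * w))) = 0 := by
    rw [hS] at hsum
    linear_combination a * hsum - hdet + hE
  rw [Real.cosh_eq]
  rcases mul_eq_zero.1 hfac with h | h
  · have ha : a = Real.exp (2 * w) := by linarith
    have hb : b = Real.exp (-(2 * w)) := by linarith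
    rw [ha, hb, hp1, hp2]
    ring
  · have ha : a = Real.exp (-(2 * w)) := by linarith
    have hb : b = Real.exp (2 * w) := by linarith
    rw [ha, hb, hp1, hp2]
    ring

end Pool.Agent.R263.SC
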