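import Mathlib
import Pool.Agent.R263.SC.Defs2

open MeasureTheory Matrix

namespace Pool.Agent.R263.SC

namespace PHx

lemma nsq (z : ℂ) : ‖z‖ ^ 2 = z.re ^ 2 + z.im ^ 2 := by
  rw [Complex.sq_norm, Complex.normSq_apply]
  ring

lemma hs : (Real.sqrt 3) ^ 2 = 3 := Real.sq_sqrt (by norm_num)

lemma om2 : om ^ 2 = (⟨-1 / 2, Real.sqrt 3 / 2⟩ : ℂ) := by
  have h := hs
  rw [pow_two]
  apply Complex.ext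
  · rw [Complex.mul_re]
    simp only [om]
    linear_combination (-1 / 4) * h
  · rw [Complex.mul_im]
    simp only [om]
    ring

lemma om3 : om ^ 3 = (⟨-1, 0⟩ : ℂ) := by
  have h := hs
  rw [pow_succ, om2]
  apply Complex.ext
  · rw [Complex.mul_re]
    simp only [om]
    linear_combination (-1 / 4) * h
  · rw [Complex.mul_im]
    simp only [om]
    ring

lemma om4 : om ^ 4 = (⟨-1 / 2, -Real.sqrt 3 / 2⟩ : ℂ) := by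
  rw [pow_succ, om3]
  apply Complex.ext
  · rw [Complex.mul_re]
    simp only [om]
    ring
  · rw [Complex.mul_im]
    simp only [om]
    ring

lemma om5 : om ^ 5 = (⟨1 / 2, -Real.sqrt 3 / 2⟩ : ℂ) := by
  have h := hs
  rw [pow_succ, om4]
  apply Complex.ext
  · rw [Complex.mul_re]
    simp only [om]
    linear_combination (1 / 4) * h
  · rw [Complex.mul_im]
    simp only [om]
    ring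

lemma six (a b : ℂ) : ∃ q x1 x2 x3 : ℝ, x1 ^ 2 + x2 ^ 2 + x3 ^ 2 = 3 / 2 * q ∧
    x1 ^ 4 + x2 ^ 4 + x3 ^ 4 = 9 / 8 * q ^ 2 ∧ q = 4 * (‖a‖ ^ 2 * ‖b‖ ^ 2) ∧
    ‖a + om ^ 0 * b‖ ^ 2 = ‖a‖ ^ 2 + ‖b‖ ^ 2 + x1 ∧
    ‖a + om ^ 1 * b‖ ^ 2 = ‖a‖ ^ 2 + ‖b‖ ^ 2 + x2 ∧
    ‖a + om ^ 2 * b‖ ^ 2 = ‖a‖ ^ 2 + ‖b‖ ^ 2 - x3 ∧
    ‖a + om ^ 3 * b‖ ^ 2 = ‖a‖ ^ 2 + ‖b‖ ^ 2 - x1 ∧
    ‖a + om ^ 4 * b‖ ^ 2 = ‖a‖ ^ 2 + ‖b‖ ^ 2 - x2 ∧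
    ‖a + om ^ 5 * b‖ ^ 2 = ‖a‖ ^ 2 + ‖b‖ ^ 2 + x3 := by
  have h := hs
  set s := Real.sqrt 3 with hsd
  obtain ⟨a1, a2⟩ := a
  obtain ⟨b1, b2⟩ := b
  refine ⟨(2 * (a1 * b1 + a2 * b2)) ^ 2 + (2 * (a1 * b2 - a2 * b1)) ^ 2,
    2 * (a1 * b1 + a2 * b2),
    (2 * (a1 * b1 + a2 * b2) - s * (2 * (a1 * b2 - a2 * b1))) / 2,
    (2 * (a1 * b1 + a2 * b2) + s * (2 * (a1 * b2 - a2 * b1))) / 2, ?_, ?_, ?_, ?_, ?_, ?_, ?_, ?_, ?_⟩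
  · linear_combination (1 / 2) * (2 * (a1 * b2 - a2 * b1)) ^ 2 * h
  · linear_combination ((3 / 4) * (2 * (a1 * b1 + a2 * b2)) ^ 2 * (2 * (a1 * b2 - a2 * b1)) ^ 2 +
      (1 / 8) * (2 * (a1 * b2 - a2 * b1)) ^ 4 * (s ^ 2 + 3)) * h
  · rw [nsq, nsq]
    ring
  · rw [nsq, nsq, nsq, pow_zero, one_mul]
    simp only [Complex.add_re, Complex.add_im]
    ring
  · rw [nsq, nsq, nsq, pow_one]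
    simp only [om, Complex.add_re, Complex.add_im, Complex.mul_re, Complex.mul_im, ← hsd]
    linear_combination (1 / 4) * (b1 ^ 2 + b2 ^ 2) * h
  · rw [nsq, nsq, nsq, om2]
    simp only [Complex.add_re, Complex.add_im, Complex.mul_re, Complex.mul_im, ← hsd]
    linear_combination (1 / 4) * (b1 ^ 2 + b2 ^ 2) * h
  · rw [nsq, nsq, nsq, om3]
    simp only [Complex.add_re, Complex.add_im, Complex.mul_re, Complex.mul_im]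
    ring
  · rw [nsq, nsq, nsq, om4]
    simp only [Complex.add_re, Complex.add_im, Complex.mul_re, Complex.mul_im, ← hsd]
    linear_combination (1 / 4) * (b1 ^ 2 + b2 ^ 2) * h
  · rw [nsq, nsq, nsq, om5]
    simp only [Complex.add_re, Complex.add_im, Complex.mul_re, Complex.mul_im, ← hsd]
    linear_combination (1 / 4) * (b1 ^ 2 + b2 ^ 2) * h

end PHx

open PHx in
theorem s_PH : S_PH := by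
  constructor
  · intro a b
    obtain ⟨q, x1, x2, x3, h2, h4, hq, e0, e1, e2, e3, e4, e5⟩ := six a b
    have hp : ∀ z : ℂ, ‖z‖ ^ 8 = (‖z‖ ^ 2) ^ 4 := fun z => by ring
    rw [Fin.sum_univ_six]
    simp only [hp, Fin.val_zero, Fin.val_one]
    change (1 / 6 : ℝ) * ((‖a + om ^ 0 * b‖ ^ 2) ^ 4 + (‖a + om ^ 1 * b‖ ^ 2) ^ 4 +
      (‖a + om ^ 2 * b‖ ^ 2) ^ 4 + (‖a + om ^ 3 * b‖ ^ 2) ^ 4 + (‖a + om ^ 4 * b‖ ^ 2) ^ 4 +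
      (‖a + om ^ 5 * b‖ ^ 2) ^ 4) = _
    rw [e0, e1, e2, e3, e4, e5]
    have e : (1 / 6 : ℝ) * ((‖a‖ ^ 2 + ‖b‖ ^ 2 + x1) ^ 4 + (‖a‖ ^ 2 + ‖b‖ ^ 2 + x2) ^ 4 +
        (‖a‖ ^ 2 + ‖b‖ ^ 2 - x3) ^ 4 + (‖a‖ ^ 2 + ‖b‖ ^ 2 - x1) ^ 4 +
        (‖a‖ ^ 2 + ‖b‖ ^ 2 - x2) ^ 4 + (‖a‖ ^ 2 + ‖b‖ ^ 2 + x3) ^ 4) =
        (‖a‖ ^ 2 + ‖b‖ ^ 2) ^ 4 + 2 * (‖a‖ ^ 2 + ‖b‖ ^ 2) ^ 2 * (x1 ^ 2 + x2 ^ 2 + x3 ^ 2) +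
        (1 / 3) * (x1 ^ 4 + x2 ^ 4 + x3 ^ 4) := by ring
    rw [e, h2, h4, hq]
    ring
  · intro a b
    obtain ⟨q, x1, x2, x3, h2, h4, hq, e0, e1, e2, e3, e4, e5⟩ := six a b
    have hp : ∀ z : ℂ, ‖z‖ ^ 10 = (‖z‖ ^ 2) ^ 5 := fun z => by ring
    rw [Fin.sum_univ_six]
    simp only [hp, Fin.val_zero, Fin.val_one]
    change (1 / 6 : ℝ) * ((‖a + om ^ 0 * b‖ ^ 2) ^ 5 + (‖a + om ^ 1 * b‖ ^ 2) ^ 5 +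
      (‖a + om ^ 2 * b‖ ^ 2) ^ 5 + (‖a + om ^ 3 * b‖ ^ 2) ^ 5 + (‖a + om ^ 4 * b‖ ^ 2) ^ 5 +
      (‖a + om ^ 5 * b‖ ^ 2) ^ 5) = _
    rw [e0, e1, e2, e3, e4, e5]
    have e : (1 / 6 : ℝ) * ((‖a‖ ^ 2 + ‖b‖ ^ 2 + x1) ^ 5 + (‖a‖ ^ 2 + ‖b‖ ^ 2 + x2) ^ 5 +
        (‖a‖ ^ 2 + ‖b‖ ^ 2 - x3) ^ 5 + (‖a‖ ^ 2 + ‖b‖ ^ 2 - x1) ^ 5 +
        (‖a‖ ^ 2 + ‖b‖ ^ 2 - x2) ^ 5 + (‖a‖ ^ 2 + ‖b‖ ^ 2 + x3) ^ 5) =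
        (‖a‖ ^ 2 + ‖b‖ ^ 2) ^ 5 + 10 / 3 * (‖a‖ ^ 2 + ‖b‖ ^ 2) ^ 3 * (x1 ^ 2 + x2 ^ 2 + x3 ^ 2) +
        (5 / 3) * (‖a‖ ^ 2 + ‖b‖ ^ 2) * (x1 ^ 4 + x2 ^ 4 + x3 ^ 4) := by ring
    rw [e, h2, h4, hq]
    ring

end Pool.Agent.R263.SC
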