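import Mathlib
import Pool.Agent.R263.SC.Defs

/-! Piece Q1: rank-one decomposition with null vectors (Sturm-Zhang). -/

set_option autoImplicit false

open MeasureTheory Matrix

namespace Pool.Agent.R263.SC

namespace Q1x

/-- the Lorentz form -/
def J (v : Fin 4 → ℝ) : ℝ := v 0 ^ 2 - v 1 ^ 2 - v 2 ^ 2 - v 3 ^ 2

/-- the rotated pair, first vector -/
noncomputable def r1 (u v : Fin 4 → ℝ) (t : ℝ) : Fin 4 → ℝ := fun i => Real.cos t * u i + Real.sin t * v i

/-- the rotated pair, second vector -/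
noncomputable def r2 (u v : Fin 4 → ℝ) (t : ℝ) : Fin 4 → ℝ := fun i => -Real.sin t * u i + Real.cos t * v i

theorem r_sum (u v : Fin 4 → ℝ) (t : ℝ) (i j : Fin 4) :
    r1 u v t i * r1 u v t j + r2 u v t i * r2 u v t j = u i * u j + v i * v j := by
  unfold r1 r2
  have h := Real.sin_sq_add_cos_sq t
  linear_combination (u i * u j + v i * v j) * h

theorem J_sum (u v : Fin 4 → ℝ) (t : ℝ) : J (r1 u v t) + J (r2 u v t) = J u + J v := by
  have h0 := r_sum u v t 0 0
  have h1 := r_sum u v t 1 1
  have h2 := r_sum u v t 2 2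
  have h3 := r_sum u v t 3 3
  unfold J
  linear_combination h0 - h1 - h2 - h3

theorem J_cont (u v : Fin 4 → ℝ) : Continuous fun t => J (r1 u v t) := by
  unfold J r1
  fun_prop

theorem exists_zero {u v : Fin 4 → ℝ} (hu : 0 < J u) (hv : J v < 0) : ∃ t, J (r1 u v t) = 0 := by
  have h0 : J (r1 u v 0) = J u := by
    unfold r1
    simp
  have h1 : J (r1 u v (Real.pi / 2)) = J v := by
    unfold r1
    simp
  have h2 : (0 : ℝ) ∈ Set.Icc (J (r1 u v (Real.pi / 2))) (J (r1 u v 0)) := by
    rw [h0, h1]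
    exact ⟨hv.le, hu.le⟩
  obtain ⟨t, -, ht⟩ := intermediate_value_Icc' (by positivity : (0 : ℝ) ≤ Real.pi / 2)
    (J_cont u v).continuousOn h2
  exact ⟨t, ht⟩

theorem main (N : ℕ) : ∀ (m : ℕ) (v : Fin N → Fin 4 → ℝ),
    (Finset.univ.filter fun k => J (v k) ≠ 0).card ≤ m → ∑ k, J (v k) = 0 →
    ∃ q : Fin N → Fin 4 → ℝ, (∀ k, J (q k) = 0) ∧
      ∀ i j, ∑ k, q k i * q k j = ∑ k, v k i * v k j := by
  intro m
  induction m with
  | zero =>
    intro v hv _
    refine ⟨v, fun k => ?_, fun _ _ => rfl⟩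
    by_contra h
    have h1 : k ∈ Finset.univ.filter fun k => J (v k) ≠ 0 := by simpa using h
    rw [Finset.card_eq_zero.1 (Nat.le_zero.1 hv)] at h1
    simp at h1
  | succ m ih =>
    intro v hv hs
    by_cases hall : ∀ k, J (v k) = 0
    · exact ⟨v, hall, fun _ _ => rfl⟩
    push Not at hall
    obtain ⟨k0, hk0⟩ := hall
    have hpos : ∃ a, 0 < J (v a) := by
      by_contra h
      push Not at h
      have h1 := (Finset.sum_eq_zero_iff_of_nonpos (fun k _ => h k)).1 hs k0 (Finset.mem_univ _)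
      exact hk0 h1
    have hneg : ∃ b, J (v b) < 0 := by
      by_contra h
      push Not at h
      have h1 := (Finset.sum_eq_zero_iff_of_nonneg (fun k _ => h k)).1 hs k0 (Finset.mem_univ _)
      exact hk0 h1
    obtain ⟨a, ha⟩ := hpos
    obtain ⟨b, hb⟩ := hneg
    have hab : a ≠ b := by
      rintro rfl
      exact lt_asymm ha hb
    obtain ⟨t, ht⟩ := exists_zero ha hb
    set w : Fin N → Fin 4 → ℝ := Function.update (Function.update v b (r2 (v a) (v b) t)) a
      (r1 (v a) (v b) t) with hw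
    have wa : w a = r1 (v a) (v b) t := by rw [hw, Function.update_self]
    have wb : w b = r2 (v a) (v b) t := by
      rw [hw, Function.update_of_ne hab.symm, Function.update_self]
    have wk : ∀ k, k ≠ a → k ≠ b → w k = v k := fun k h1 h2 => by
      rw [hw, Function.update_of_ne h1, Function.update_of_ne h2]
    have hsum : ∀ f : (Fin 4 → ℝ) → ℝ, f (w a) + f (w b) = f (v a) + f (v b) →
        ∑ k, f (w k) = ∑ k, f (v k) := by
      intro f hf
      have e : ∀ g : Fin N → ℝ, ∑ k, g k =
          g a + (g b + ∑ k ∈ (Finset.univ.erase a).erase b, g k) := by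
        intro g
        rw [Finset.add_sum_erase _ _ (Finset.mem_erase.2 ⟨hab.symm, Finset.mem_univ _⟩),
          Finset.add_sum_erase _ _ (Finset.mem_univ _)]
      rw [e (fun k => f (w k)), e (fun k => f (v k)), ← add_assoc, ← add_assoc, hf]
      congr 1
      refine Finset.sum_congr rfl fun k hk => ?_
      rw [Finset.mem_erase, Finset.mem_erase] at hk
      rw [wk k hk.2.1 hk.1]
    have hcard : (Finset.univ.filter fun k => J (w k) ≠ 0).card ≤ m := by
      have hss : (Finset.univ.filter fun k => J (w k) ≠ 0) ⊂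
          Finset.univ.filter fun k => J (v k) ≠ 0 := by
        rw [Finset.ssubset_iff_of_subset]
        · refine ⟨a, by simpa using ha.ne', ?_⟩
          rw [Finset.mem_filter, wa]
          exact fun h => h.2 ht
        · intro k hk
          rw [Finset.mem_filter] at hk ⊢
          refine ⟨Finset.mem_univ _, ?_⟩
          by_cases h1 : k = a
          · rw [h1]
            exact ha.ne'
          by_cases h2 : k = b
          · rw [h2]
            exact hb.ne
          rw [← wk k h1 h2]
          exact hk.2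
      have := Finset.card_lt_card hss
      omega
    obtain ⟨q, hq1, hq2⟩ := ih w hcard (by
      rw [hsum J (by rw [wa, wb]; exact J_sum _ _ _), hs])
    refine ⟨q, hq1, fun i j => ?_⟩
    rw [hq2]
    exact hsum (fun u => u i * u j) (by
      rw [wa, wb]
      exact r_sum _ _ _ _ _)

end Q1x

open scoped MatrixOrder in
theorem Q1x.fac (Q : Matrix (Fin 4) (Fin 4) ℝ) (hQ : Q.PosSemidef) :
    ∃ B : Matrix (Fin 4) (Fin 4) ℝ, Q = Bᴴ * B := by
  obtain ⟨X, hX, -, hXe⟩ := CFC.exists_sqrt_of_isSelfAdjoint_of_quasispectrumRestricts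
    hQ.isHermitian (QuasispectrumRestricts.nnreal_of_nonneg hQ.nonneg)
  refine ⟨X, ?_⟩
  rw [← hXe]
  congr 1
  exact hX.star_eq.symm

open Q1x in
theorem s_Q1 : S_Q1 := by
  intro Q hQ hQ0
  obtain ⟨B, hB⟩ := Q1x.fac Q hQ
  have hQe : ∀ i j, Q i j = ∑ k, B k i * B k j := by
    intro i j
    rw [hB, Matrix.mul_apply]
    rfl
  obtain ⟨q, hq1, hq2⟩ := Q1x.main 4 _ (fun k => B k) le_rfl (by
    unfold Q1x.J
    rw [Finset.sum_sub_distrib, Finset.sum_sub_distrib, Finset.sum_sub_distrib]
    have e : ∀ i, ∑ k, B k i ^ 2 = Q i i := fun i => by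
      rw [hQe]
      exact Finset.sum_congr rfl fun k _ => sq _
    rw [e, e, e, e]
    linarith)
  refine ⟨4, q, fun k => ?_, fun i j => ?_⟩
  · have h := hq1 k
    unfold Q1x.J at h
    unfold Null
    linarith
  · rw [hQe, hq2]

end Pool.Agent.R263.SC
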