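import Mathlib
import Pool.Agent.R263.SC.Defs

set_option autoImplicit false

open MeasureTheory Matrix

namespace Pool.Agent.R263.SC

namespace Q23

theorem spinor {q0 q1 q2 q3 : ℝ} (h0 : 0 ≤ q0) (h : q0 ^ 2 = q1 ^ 2 + q2 ^ 2 + q3 ^ 2) :
    ∃ r c d : ℝ, r ^ 2 = q0 + q3 ∧ r * c = q1 ∧ r * d = q2 ∧ c ^ 2 + d ^ 2 = q0 - q3 := by
  by_cases hs : 0 < q0 + q3
  · have hr : Real.sqrt (q0 + q3) ≠ 0 := (Real.sqrt_pos.2 hs).ne'
    have hr2 : Real.sqrt (q0 + q3) ^ 2 = q0 + q3 := Real.sq_sqrt hs.le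
    refine ⟨Real.sqrt (q0 + q3), q1 / Real.sqrt (q0 + q3), q2 / Real.sqrt (q0 + q3), hr2,
      mul_div_cancel₀ _ hr, mul_div_cancel₀ _ hr, ?_⟩
    rw [div_pow, div_pow, hr2, ← add_div, div_eq_iff hs.ne']
    nlinarith
  · have h3 : -q3 ≤ q0 := by
      by_contra hcon
      push Not at hcon
      nlinarith [sq_nonneg q1, sq_nonneg q2]
    have h4 : q3 = -q0 := by linarith
    have h5 : q1 ^ 2 + q2 ^ 2 = 0 := by rw [h4] at h; linarith
    have h6 : q1 = 0 := by nlinarith [sq_nonneg q1, sq_nonneg q2]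
    have h7 : q2 = 0 := by nlinarith [sq_nonneg q1, sq_nonneg q2]
    refine ⟨0, Real.sqrt (q0 - q3), 0, by rw [h4]; ring, by rw [h6]; ring, by rw [h7]; ring, ?_⟩
    rw [Real.sq_sqrt (by linarith)]
    ring

theorem q2pos (q : Fin 4 → ℝ) (hq : Null q) (h0 : 0 ≤ q 0) : ∃ a b : ℂ, ∀ α β : ℂ,
    ‖α * a + β * b‖ ^ 4 = (∑ i, q i * hh α β i) ^ 2 := by
  obtain ⟨r, c, d, e1, e2, e3, e4⟩ := spinor h0 hq
  refine ⟨⟨r, 0⟩, ⟨c, d⟩, fun α β => ?_⟩
  have h1 : ‖α * (⟨r, 0⟩ : ℂ) + β * (⟨c, d⟩ : ℂ)‖ ^ 2 = ∑ i, q i * hh α β i := by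
    rw [← Complex.normSq_eq_norm_sq, Complex.normSq_apply, Fin.sum_univ_four]
    simp only [hh, Matrix.cons_val_zero, Matrix.cons_val_one, Matrix.cons_val]
    rw [← Complex.normSq_eq_norm_sq, ← Complex.normSq_eq_norm_sq, Complex.normSq_apply,
      Complex.normSq_apply]
    simp only [Complex.add_re, Complex.add_im, Complex.mul_re, Complex.mul_im, Complex.conj_re,
      Complex.conj_im]
    rw [← e2, ← e3]
    have e5 : q 0 = (r ^ 2 + (c ^ 2 + d ^ 2)) / 2 := by linarith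
    have e6 : q 3 = (r ^ 2 - (c ^ 2 + d ^ 2)) / 2 := by linarith
    rw [e5, e6]
    ring
  rw [← h1]
  ring

end Q23

theorem s_Q2 : S_Q2 := by
  intro q hq
  by_cases h0 : 0 ≤ q 0
  · exact Q23.q2pos q hq h0
  · have hq' : Null (fun i => - q i) := by
      unfold Null at *
      simpa using hq
    obtain ⟨a, b, hab⟩ := Q23.q2pos (fun i => - q i) hq' (by
      show 0 ≤ - q 0
      linarith)
    refine ⟨a, b, fun α β => ?_⟩
    rw [hab α β]
    have : ∑ i, (fun i => - q i) i * hh α β i = - ∑ i, q i * hh α β i := by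
      rw [← Finset.sum_neg_distrib]
      refine Finset.sum_congr rfl fun i _ => ?_
      ring
    rw [this, neg_sq]

namespace Q23

variable {n : ℕ}

/-- Gram matrix -/
noncomputable def GM (Z : Fin 4 → Matrix (Fin n) (Fin n) ℂ) : Matrix (Fin 4) (Fin 4) ℝ :=
  fun i j => ((Z i * Z j).trace).re

theorem gm_psd (Z : Fin 4 → Matrix (Fin n) (Fin n) ℂ) (hZ : ∀ i, (Z i)ᴴ = Z i) :
    (GM Z).PosSemidef := by
  let V : Matrix ((Fin n × Fin n) × Bool) (Fin 4) ℝ := fun k i =>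
    if k.2 then (Z i k.1.1 k.1.2).re else (Z i k.1.1 k.1.2).im
  have h : GM Z = Vᴴ * V := by
    ext i j
    have h1 : ∀ k l, Z j l k = (starRingEnd ℂ) (Z j k l) := by
      intro k l
      conv_lhs => rw [← hZ j]
      rfl
    simp only [GM, Matrix.trace, Matrix.diag, Matrix.mul_apply, Matrix.conjTranspose_apply]
    rw [Fintype.sum_prod_type, Fintype.sum_prod_type, Complex.re_sum]
    refine Finset.sum_congr rfl fun k _ => ?_
    rw [Complex.re_sum]
    refine Finset.sum_congr rfl fun l _ => ?_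
    rw [h1 k l, Fintype.sum_bool]
    simp [V, Complex.mul_re]
  rw [h]
  exact Matrix.posSemidef_conjTranspose_mul_self V

theorem quad (Z : Fin 4 → Matrix (Fin n) (Fin n) ℂ) (h : Fin 4 → ℝ) :
    (((∑ i, (h i : ℂ) • Z i) * (∑ j, (h j : ℂ) • Z j)).trace).re =
      ∑ i, ∑ j, GM Z i j * (h i * h j) := by
  rw [Finset.sum_mul_sum, Matrix.trace_sum, Complex.re_sum]
  refine Finset.sum_congr rfl fun i _ => ?_
  rw [Matrix.trace_sum, Complex.re_sum]
  refine Finset.sum_congr rfl fun j _ => ?_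
  rw [smul_mul_smul_comm, Matrix.trace_smul, smul_eq_mul, ← Complex.ofReal_mul,
    Complex.re_ofReal_mul, GM]
  ring

/-- the four Hermitian matrices -/
noncomputable def ZZ (p q c e : Matrix (Fin n) (Fin n) ℂ) : Fin 4 → Matrix (Fin n) (Fin n) ℂ :=
  ![(1 / 2 : ℂ) • (p + q), (1 / 2 : ℂ) • (c + e), (Complex.I / 2) • (e - c),
    (1 / 2 : ℂ) • (p - q)]

theorem zz_herm {p q c e : Matrix (Fin n) (Fin n) ℂ} (hp : pᴴ = p) (hq : qᴴ = q) (hc : cᴴ = e)
    (i : Fin 4) : (ZZ p q c e i)ᴴ = ZZ p q c e i := by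
  have he : eᴴ = c := by rw [← hc, Matrix.conjTranspose_conjTranspose]
  have hs2 : star (1 / 2 : ℂ) = 1 / 2 := by simp
  have hsI : star (Complex.I / 2) = -(Complex.I / 2) := by
    simp [Complex.ext_iff]
    norm_num
  fin_cases i
  · show ((1 / 2 : ℂ) • (p + q))ᴴ = (1 / 2 : ℂ) • (p + q)
    rw [Matrix.conjTranspose_smul, Matrix.conjTranspose_add, hp, hq, hs2]
  · show ((1 / 2 : ℂ) • (c + e))ᴴ = (1 / 2 : ℂ) • (c + e)
    rw [Matrix.conjTranspose_smul, Matrix.conjTranspose_add, hc, he, hs2, add_comm]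
  · show ((Complex.I / 2) • (e - c))ᴴ = (Complex.I / 2) • (e - c)
    rw [Matrix.conjTranspose_smul, Matrix.conjTranspose_sub, hc, he, hsI, neg_smul, ← smul_neg,
      neg_sub]
  · show ((1 / 2 : ℂ) • (p - q))ᴴ = (1 / 2 : ℂ) • (p - q)
    rw [Matrix.conjTranspose_smul, Matrix.conjTranspose_sub, hp, hq, hs2]

theorem zz_sum (p q c e : Matrix (Fin n) (Fin n) ℂ) (α β : ℂ) :
    (star α * α) • p + (star β * β) • q + (star α * β) • c + (star β * α) • e =
      ∑ i, (hh α β i : ℂ) • ZZ p q c e i := by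
  rw [Fin.sum_univ_four]
  have k0 : (hh α β 0 : ℂ) = star α * α + star β * β := by
    simp [hh, Complex.ext_iff, Complex.sq_norm, Complex.normSq_apply]
    ring
  have k1 : (hh α β 1 : ℂ) = star β * α + star α * β := by
    simp [hh, Complex.ext_iff]
    constructor <;> ring
  have k2 : (hh α β 2 : ℂ) * Complex.I = star β * α - star α * β := by
    simp [hh, Complex.ext_iff]
    constructor <;> ring
  have k3 : (hh α β 3 : ℂ) = star α * α - star β * β := by
    simp [hh, Complex.ext_iff, Complex.sq_norm, Complex.normSq_apply]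
    ring
  have z0 : ZZ p q c e 0 = (1 / 2 : ℂ) • (p + q) := rfl
  have z1 : ZZ p q c e 1 = (1 / 2 : ℂ) • (c + e) := rfl
  have z2 : ZZ p q c e 2 = (Complex.I / 2) • (e - c) := rfl
  have z3 : ZZ p q c e 3 = (1 / 2 : ℂ) • (p - q) := rfl
  rw [z0, z1, z2, z3, k0, k1, k3, smul_smul (hh α β 2 : ℂ), ← mul_div_assoc, k2]
  module

theorem zz_trace (p q c e : Matrix (Fin n) (Fin n) ℂ) :
    (ZZ p q c e 0 * ZZ p q c e 0).trace - (ZZ p q c e 1 * ZZ p q c e 1).trace -
      (ZZ p q c e 2 * ZZ p q c e 2).trace - (ZZ p q c e 3 * ZZ p q c e 3).trace =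
      (p * q).trace - (c * e).trace := by
  have z0 : ZZ p q c e 0 = (1 / 2 : ℂ) • (p + q) := rfl
  have z1 : ZZ p q c e 1 = (1 / 2 : ℂ) • (c + e) := rfl
  have z2 : ZZ p q c e 2 = (Complex.I / 2) • (e - c) := rfl
  have z3 : ZZ p q c e 3 = (1 / 2 : ℂ) • (p - q) := rfl
  rw [z0, z1, z2, z3]
  simp only [smul_mul_smul_comm, Matrix.trace_smul, Matrix.mul_add, Matrix.add_mul,
    Matrix.mul_sub, Matrix.sub_mul, Matrix.trace_add, Matrix.trace_sub, smul_eq_mul]
  rw [Matrix.trace_mul_comm q p, Matrix.trace_mul_comm e c]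
  have hI : Complex.I / 2 * (Complex.I / 2) = -(1 / 4) := by
    have := Complex.I_mul_I
    linear_combination this / 4
  rw [hI]
  ring

end Q23

open Q23 in
theorem s_Q3 : S_Q3 := by
  intro n A B
  set Y := ZZ (Aᴴ * A) (Bᴴ * B) (Aᴴ * B) (Bᴴ * A) with hY
  set X := ZZ (A * Aᴴ) (B * Bᴴ) (B * Aᴴ) (A * Bᴴ) with hX
  have hYh : ∀ i, (Y i)ᴴ = Y i := zz_herm (by simp) (by simp) (by simp)
  have hXh : ∀ i, (X i)ᴴ = X i := zz_herm (by simp) (by simp) (by simp)
  refine ⟨(1 / 2 : ℝ) • (GM X + GM Y), ?_, ?_, ?_⟩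
  · exact ((gm_psd X hXh).add (gm_psd Y hYh)).smul (by norm_num)
  · have h1 := congrArg Complex.re (zz_trace (A * Aᴴ) (B * Bᴴ) (B * Aᴴ) (A * Bᴴ))
    have h2 := congrArg Complex.re (zz_trace (Aᴴ * A) (Bᴴ * B) (Aᴴ * B) (Bᴴ * A))
    rw [← hX] at h1
    rw [← hY] at h2
    have t1 : (Aᴴ * B * (Bᴴ * A)).trace = (A * Aᴴ * (B * Bᴴ)).trace := by
      rw [← Matrix.mul_assoc, Matrix.trace_mul_comm]
      simp only [Matrix.mul_assoc]
    have t2 : (B * Aᴴ * (A * Bᴴ)).trace = (Aᴴ * A * (Bᴴ * B)).trace := by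
      rw [Matrix.mul_assoc, Matrix.trace_mul_comm]
      simp only [Matrix.mul_assoc]
    simp only [Complex.sub_re] at h1 h2
    rw [t2] at h1
    rw [t1] at h2
    simp only [Matrix.smul_apply, Matrix.add_apply, GM, smul_eq_mul]
    linarith
  · intro α β
    set M := α • A + β • B with hM
    have m1 : Mᴴ * M = ∑ i, (hh α β i : ℂ) • Y i := by
      rw [hY, ← zz_sum, hM]
      simp only [Matrix.conjTranspose_add, Matrix.conjTranspose_smul, Matrix.mul_add,
        Matrix.add_mul, smul_mul_smul_comm]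
      module
    have m2 : M * Mᴴ = ∑ i, (hh α β i : ℂ) • X i := by
      rw [hX, ← zz_sum, hM]
      simp only [Matrix.conjTranspose_add, Matrix.conjTranspose_smul, Matrix.mul_add,
        Matrix.add_mul, smul_mul_smul_comm]
      module
    have q1 := quad Y (hh α β)
    have q2 := quad X (hh α β)
    rw [← m1] at q1
    rw [← m2] at q2
    have t : (M * Mᴴ * (M * Mᴴ)).trace = (Mᴴ * M * (Mᴴ * M)).trace := by
      rw [Matrix.mul_assoc, Matrix.trace_mul_comm]
      simp only [Matrix.mul_assoc]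
    rw [t] at q2
    have hsum : ∑ i, ∑ j, ((1 / 2 : ℝ) • (GM X + GM Y)) i j * (hh α β i * hh α β j) =
        (1 / 2) * ((∑ i, ∑ j, GM X i j * (hh α β i * hh α β j)) +
          ∑ i, ∑ j, GM Y i j * (hh α β i * hh α β j)) := by
      rw [← Finset.sum_add_distrib, Finset.mul_sum]
      refine Finset.sum_congr rfl fun i _ => ?_
      rw [← Finset.sum_add_distrib, Finset.mul_sum]
      refine Finset.sum_congr rfl fun j _ => ?_
      simp only [Matrix.smul_apply, Matrix.add_apply, smul_eq_mul]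
      ring
    rw [hsum, ← q1, ← q2]
    ring

end Pool.Agent.R263.SC
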