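import Pool.Agent.R263.SC.Defs
import Pool.Agent.R260.SC.TR
import Pool.Agent.R260.SC.NUSF

/-! The fourth power of the Schatten norm as a trace, and step functions (both from the pieces
`tr`, `sf` of project SC of helper260, which state the same facts). -/

set_option autoImplicit false

open MeasureTheory Matrix

namespace Pool.Agent.R263.SC

theorem s_Q4 : S_Q4 := by
  intro n M
  have h := Pool.Agent.R260.SC.tr n 2 M
  have e : schattenPow 4 M = Pool.Agent.R260.SC.sch (2 * ((2 : ℕ) : ℝ)) M := by
    unfold schattenPow Pool.Agent.R260.SC.sch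
    norm_num
  rw [e, ← pow_two, ← h, Complex.ofReal_re]

theorem s_Q5 : S_Q5 := by
  intro N a b
  obtain ⟨f, g, hf, hg, h⟩ := Pool.Agent.R260.SC.NUSF.sf N a b
  have e : ENNReal.ofReal 4 = 4 := by simp
  exact ⟨f, g, by rw [e]; exact hf, by rw [e]; exact hg, h⟩

end Pool.Agent.R263.SC
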