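import Mathlib
import Pool.Agent.R263.SC.Defs

/-! MP_41c25d_an: integrability and the Cauchy-Schwarz inequality. -/

open MeasureTheory Matrix

namespace Pool.Agent.R263.SC

theorem YC_bound (x y a b p : ℝ) (hx : 0 ≤ x) (hy : 0 ≤ y) (ha : 0 ≤ a) (hb : 0 ≤ b)
    (hab : a + b = p) : x ^ a * y ^ b ≤ x ^ p + y ^ p := by
  have hm : 0 ≤ max x y := le_max_of_le_left hx
  have h1 : x ^ a * y ^ b ≤ max x y ^ p := by
    rw [← hab, Real.rpow_add_of_nonneg hm ha hb]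
    exact mul_le_mul (Real.rpow_le_rpow hx (le_max_left _ _) ha)
      (Real.rpow_le_rpow hy (le_max_right _ _) hb) (Real.rpow_nonneg hy b)
      (Real.rpow_nonneg hm a)
  have hxp := Real.rpow_nonneg hx p
  have hyp := Real.rpow_nonneg hy p
  rcases max_choice x y with h | h
  · rw [h] at h1
    linarith
  · rw [h] at h1
    linarith

theorem YC_int (μ : Measure ℝ) (p : ℝ) (f : ℝ → ℂ) (hp : 0 < p)
    (hf : MemLp f (ENNReal.ofReal p) μ) : Integrable (fun t => ‖f t‖ ^ p) μ := by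
  have h := hf.integrable_norm_rpow (by simpa using hp) ENNReal.ofReal_ne_top
  rwa [ENNReal.toReal_ofReal hp.le] at h

theorem s_YOUNG : S_YOUNG := by
  intro μ p a b f g hp ha hb hab hf hg
  refine Integrable.mono' ((YC_int μ p f hp hf).add (YC_int μ p g hp hg)) ?_ ?_
  · exact ((Real.continuous_rpow_const ha).comp_aestronglyMeasurable hf.1.norm).mul
      ((Real.continuous_rpow_const hb).comp_aestronglyMeasurable hg.1.norm)
  · refine Filter.Eventually.of_forall fun t => ?_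
    rw [Real.norm_of_nonneg (by positivity)]
    exact YC_bound _ _ a b p (norm_nonneg _) (norm_nonneg _) ha hb hab

theorem s_CS (h : S_YOUNG) : S_CS := by
  intro μ p f g hp hf hg
  have i1 : Integrable (fun t => ‖f t‖ ^ p) μ := YC_int μ p f (by linarith) hf
  have i2 : Integrable (fun t => ‖f t‖ ^ (p - 2) * ‖g t‖ ^ 2) μ := by
    have := h μ p (p - 2) 2 f g (by linarith) (by linarith) (by norm_num) (by ring) hf hg
    refine this.congr (Filter.Eventually.of_forall fun t => ?_)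
    show ‖f t‖ ^ (p - 2) * ‖g t‖ ^ (2 : ℝ) = ‖f t‖ ^ (p - 2) * ‖g t‖ ^ 2
    rw [Real.rpow_two]
  have i3 : Integrable (fun t => ‖f t‖ ^ (p - 4) * ‖g t‖ ^ 4) μ := by
    have := h μ p (p - 4) 4 f g (by linarith) (by linarith) (by norm_num) (by ring) hf hg
    refine this.congr (Filter.Eventually.of_forall fun t => ?_)
    show ‖f t‖ ^ (p - 4) * ‖g t‖ ^ (4 : ℝ) = ‖f t‖ ^ (p - 4) * ‖g t‖ ^ 4
    congr 1
    exact_mod_cast Real.rpow_natCast ‖g t‖ 4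
  have key : ∀ x : ℝ, 0 ≤ (∫ t, ‖f t‖ ^ p ∂μ) * (x * x) +
      (2 * ∫ t, ‖f t‖ ^ (p - 2) * ‖g t‖ ^ 2 ∂μ) * x + ∫ t, ‖f t‖ ^ (p - 4) * ‖g t‖ ^ 4 ∂μ := by
    intro x
    have e : (∫ t, ‖f t‖ ^ p ∂μ) * (x * x) +
        (2 * ∫ t, ‖f t‖ ^ (p - 2) * ‖g t‖ ^ 2 ∂μ) * x + ∫ t, ‖f t‖ ^ (p - 4) * ‖g t‖ ^ 4 ∂μ =
        ∫ t, (‖f t‖ ^ p * (x * x) + (‖f t‖ ^ (p - 2) * ‖g t‖ ^ 2) * (2 * x) +
          ‖f t‖ ^ (p - 4) * ‖g t‖ ^ 4) ∂μ := by
      have j1 : Integrable (fun t => ‖f t‖ ^ p * (x * x)) μ := i1.mul_const _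
      have j2 : Integrable (fun t => (‖f t‖ ^ (p - 2) * ‖g t‖ ^ 2) * (2 * x)) μ := i2.mul_const _
      have j12 : Integrable (fun t => ‖f t‖ ^ p * (x * x) +
          (‖f t‖ ^ (p - 2) * ‖g t‖ ^ 2) * (2 * x)) μ := j1.add j2
      rw [integral_add j12 i3, integral_add j1 j2, integral_mul_const, integral_mul_const]
      ring
    rw [e]
    refine integral_nonneg fun t => ?_
    have h0 : 0 ≤ ‖f t‖ := norm_nonneg _
    have e1 : ‖f t‖ ^ p = ‖f t‖ ^ (p - 4) * ‖f t‖ ^ 4 := by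
      have h4 : ‖f t‖ ^ (4 : ℝ) = ‖f t‖ ^ 4 := by exact_mod_cast Real.rpow_natCast ‖f t‖ 4
      rw [← h4, ← Real.rpow_add_of_nonneg h0 (by linarith) (by norm_num)]
      congr 1
      ring
    have e2 : ‖f t‖ ^ (p - 2) = ‖f t‖ ^ (p - 4) * ‖f t‖ ^ 2 := by
      rw [← Real.rpow_two, ← Real.rpow_add_of_nonneg h0 (by linarith) (by norm_num)]
      congr 1
      ring
    show 0 ≤ ‖f t‖ ^ p * (x * x) + (‖f t‖ ^ (p - 2) * ‖g t‖ ^ 2) * (2 * x) +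
          ‖f t‖ ^ (p - 4) * ‖g t‖ ^ 4
    rw [e1, e2]
    have e3 : ‖f t‖ ^ (p - 4) * ‖f t‖ ^ 4 * (x * x) +
        (‖f t‖ ^ (p - 4) * ‖f t‖ ^ 2 * ‖g t‖ ^ 2) * (2 * x) + ‖f t‖ ^ (p - 4) * ‖g t‖ ^ 4 =
        ‖f t‖ ^ (p - 4) * (x * ‖f t‖ ^ 2 + ‖g t‖ ^ 2) ^ 2 := by ring
    rw [e3]
    exact mul_nonneg (Real.rpow_nonneg h0 _) (sq_nonneg _)
  have hd := discrim_le_zero key
  unfold discrim at hd
  nlinarith

end Pool.Agent.R263.SC
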